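import Pool.Agent.TH152.DG.Indep

/-! # Dimensions of spaces of values, and independent equations -/

set_option autoImplicit false
set_option linter.unusedSectionVars false

open Module MvPolynomial

namespace Pool.Agent.TH152.DG

variable {L E : Type*} [Field L] [Field E] [Algebra L E] {Z : Type*} [Fintype Z] [DecidableEq Z]

/-- translation by the point `ζ` -/
noncomputable def tr (ζ : Z → E) : MvPolynomial Z E →ₐ[E] MvPolynomial Z E :=
  aeval fun z => X z + C (ζ z)

lemma constantCoeff_tr (ζ : Z → E) (p : MvPolynomial Z E) :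
    constantCoeff (tr ζ p) = eval ζ p := by
  have h : (constantCoeff (R := E) (σ := Z)).comp (tr ζ : MvPolynomial Z E →+* MvPolynomial Z E) =
      (eval ζ : MvPolynomial Z E →+* E) := by
    apply ringHom_ext
    · intro r
      simp [tr]
    · intro z
      simp [tr]
  exact congrArg (fun f : MvPolynomial Z E →+* E => f p) h

/-- evaluation at the point `ζ + ε v` of the dual numbers -/
noncomputable def ev2 (ζ v : Z → E) : MvPolynomial Z E →ₐ[E] TrivSqZeroExt E E :=
  aeval fun z => TrivSqZeroExt.inl (ζ z) + TrivSqZeroExt.inr (v z)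

lemma fst_ev2 (ζ v : Z → E) (p : MvPolynomial Z E) : (ev2 ζ v p).fst = eval ζ p := by
  have h : ((TrivSqZeroExt.fstHom E E E).comp (ev2 ζ v)) = aeval ζ := by
    apply algHom_ext
    intro z
    simp [ev2]
  have h2 := congrArg (fun f : MvPolynomial Z E →ₐ[E] E => f p) h
  simpa using h2

lemma snd_ev2_zero (v : Z → E) (p : MvPolynomial Z E) :
    (ev2 0 v p).snd = ∑ z, coeff (Finsupp.single z 1) p * v z := by
  induction p using MvPolynomial.induction_on with
  | C a =>
    have h1 : ev2 0 v (C a) = TrivSqZeroExt.inl a := by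
      rw [← algebraMap_eq, AlgHom.commutes]
      rfl
    rw [h1, TrivSqZeroExt.snd_inl]
    symm
    apply Finset.sum_eq_zero
    intro z _
    rw [coeff_C, if_neg, zero_mul]
    intro h
    have := congrArg Finsupp.degree h
    simp at this
  | add p q hp hq =>
    rw [map_add, TrivSqZeroExt.snd_add, hp, hq, ← Finset.sum_add_distrib]
    apply Finset.sum_congr rfl
    intro z _
    rw [coeff_add, add_mul]
  | mul_X p i hp =>
    have h1 : ev2 0 v (X i) = TrivSqZeroExt.inr (v i) := by
      unfold ev2
      rw [aeval_X]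
      simp
    rw [map_mul, h1, TrivSqZeroExt.snd_mul, TrivSqZeroExt.snd_inr, TrivSqZeroExt.fst_inr,
      MulOpposite.op_zero, zero_smul, add_zero, fst_ev2]
    rw [Finset.sum_eq_single i]
    · rw [coeff_mul_X', if_pos]
      · rw [tsub_self]
        have : eval (0 : Z → E) p = coeff 0 p := by
          rw [← constantCoeff_eq, ← eval_zero]
        rw [this, smul_eq_mul]
      · rw [Finsupp.mem_support_iff, Finsupp.single_eq_same]
        exact one_ne_zero
    · intro z _ hz
      rw [coeff_mul_X', if_neg, zero_mul]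
      rw [Finsupp.mem_support_iff, Finsupp.single_apply, if_neg hz]
      simp
    · intro h; exact absurd (Finset.mem_univ _) h

lemma snd_ev2 (ζ v : Z → E) (p : MvPolynomial Z E) :
    (ev2 ζ v p).snd = ∑ z, coeff (Finsupp.single z 1) (tr ζ p) * v z := by
  rw [← snd_ev2_zero]
  have h : ev2 ζ v = (ev2 0 v).comp (tr ζ) := by
    apply algHom_ext
    intro z
    simp only [ev2, tr, AlgHom.comp_apply, aeval_X, map_add]
    have h1 : (aeval fun z => TrivSqZeroExt.inl ((0 : Z → E) z) + TrivSqZeroExt.inr (v z) :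
        MvPolynomial Z E →ₐ[E] TrivSqZeroExt E E) (C (ζ z)) = TrivSqZeroExt.inl (ζ z) := by
      rw [← algebraMap_eq, AlgHom.commutes]
      rfl
    rw [h1]
    simp [add_comm]
  rw [h]
  rfl

/-- evaluation as a linear map over the small field -/
noncomputable def evl (L : Type*) [Field L] {E : Type*} [Field E] [Algebra L E] {Z : Type*}
    (ζ : Z → E) : MvPolynomial Z E →ₐ[L] E :=
  (aeval ζ : MvPolynomial Z E →ₐ[E] E).restrictScalars L

lemma evl_apply (ζ : Z → E) (p : MvPolynomial Z E) : evl L ζ p = eval ζ p := rfl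

lemma card_le_of_indep {M : Type*} [AddCommGroup M] [Module L M] (V : Submodule L M)
    [FiniteDimensional L ↥V] {α : Type*} {J : Finset α} {r : ℕ} (F : J × Fin r → M)
    (hF : LinearIndependent L F) (hFV : ∀ p, F p ∈ V) (_ : Finset α) (_ : ℕ) :
    J.card * r ≤ finrank L ↥V := by
  have hG : LinearIndependent L (fun p => (⟨F p, hFV p⟩ : ↥V)) :=
    LinearIndependent.of_comp V.subtype hF
  have h := hG.fintype_card_le_finrank
  rw [Fintype.card_prod, Fintype.card_coe, Fintype.card_fin] at h
  exact h

/-- **Dimensions and independent equations.** -/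
theorem card_mul_finrank_le (R : Z → MvPolynomial Z E) (ζ : Z → E)
    (h0 : ∀ z, eval ζ (R z) = 0)
    (hJ : ∀ v : Z → E, (∀ z, (ev2 ζ v (R z)).snd = 0) → v = 0)
    (W V : Submodule L (MvPolynomial Z E)) (hW : W.FG) (hV : V.FG) (J : Finset (Z → ℕ))
    (hWV : ∀ j ∈ J, ∀ w ∈ W, (∏ z, R z ^ j z) * w ∈ V) :
    J.card * finrank L ↥(W.map (evl L ζ).toLinearMap) ≤ finrank L ↥V := by
  classical
  have : FiniteDimensional L ↥V := Module.Finite.iff_fg.mpr hV
  have : FiniteDimensional L ↥(W.map (evl L ζ).toLinearMap) :=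
    Module.Finite.iff_fg.mpr (hW.map _)
  obtain ⟨r, hr⟩ : ∃ r, finrank L ↥(W.map (evl L ζ).toLinearMap) = r := ⟨_, rfl⟩
  let b := Module.finBasisOfFinrankEq L ↥(W.map (evl L ζ).toLinearMap) hr
  have hb : ∀ i, ∃ w ∈ W, evl L ζ w = (b i : E) := by
    intro i
    obtain ⟨w, hw, h⟩ := (Submodule.mem_map).mp (b i).2
    exact ⟨w, hw, h⟩
  choose w hwW hwb using hb
  have hdet : (Matrix.of fun z z' => coeff (Finsupp.single z' 1) (tr ζ (R z))).det ≠ 0 := by
    intro hd
    obtain ⟨v, hv, hv2⟩ := Matrix.exists_mulVec_eq_zero_iff.mpr hd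
    apply hv
    apply hJ
    intro z
    rw [snd_ev2]
    exact congrFun hv2 z
  have hind := indep (L := L) (fun z => tr ζ (R z))
    (fun z => by rw [constantCoeff_tr, h0]) hdet (fun i => tr ζ (w i)) (by
      have h1 : (fun i => constantCoeff (tr ζ (w i))) = fun i => ((b i : E)) := by
        funext i
        rw [constantCoeff_tr, ← hwb i]
        rfl
      rw [h1]
      exact b.linearIndependent.map' (Submodule.subtype _) (Submodule.ker_subtype _))
  have hind2 : LinearIndependent L
      (fun p : (Z → ℕ) × Fin r => (∏ z, R z ^ p.1 z) * w p.2) := by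
    have e : (((tr ζ).restrictScalars L).toLinearMap : MvPolynomial Z E →ₗ[L] MvPolynomial Z E) ∘
        (fun p : (Z → ℕ) × Fin r => (∏ z, R z ^ p.1 z) * w p.2) =
        fun p : (Z → ℕ) × Fin r => (∏ z, tr ζ (R z) ^ p.1 z) * tr ζ (w p.2) := by
      funext p
      change tr ζ ((∏ z, R z ^ p.1 z) * w p.2) = _
      rw [map_mul, map_prod]
      congr 1
      apply Finset.prod_congr rfl
      intro z _
      rw [map_pow]
    refine LinearIndependent.of_comp (((tr ζ).restrictScalars L).toLinearMap) ?_
    rw [e]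
    exact hind
  have hinj : Function.Injective
      (fun p : J × Fin r => ((p.1.1 : Z → ℕ), p.2)) := by
    intro p q h
    rw [Prod.mk.injEq] at h
    exact Prod.ext (Subtype.ext h.1) h.2
  have hF := hind2.comp _ hinj
  rw [hr]
  exact card_le_of_indep V _ hF (fun p => hWV _ p.1.2 _ (hwW _)) J r

end Pool.Agent.TH152.DG
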