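import Mathlib

/-! # Products of powers of independent equations -/

set_option autoImplicit false
set_option linter.unusedSectionVars false

open Module MvPolynomial

namespace Pool.Agent.TH152.DG

variable {L E : Type*} [Field L] [Field E] [Algebra L E] {Z : Type*} [Fintype Z] [DecidableEq Z]

/-- the linear part of a polynomial -/
noncomputable def lin (p : MvPolynomial Z E) : MvPolynomial Z E :=
  ∑ z, C (coeff (Finsupp.single z 1) p) * X z

lemma mem_I (p : MvPolynomial Z E) (hp : constantCoeff p = 0) : p ∈ idealOfVars Z E := by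
  rw [← pow_one (idealOfVars Z E), mem_pow_idealOfVars_iff']
  intro x hx
  have : x = 0 := by
    rw [← Finsupp.degree_eq_zero_iff]; omega
  subst this
  exact hp

lemma sub_lin_mem (p : MvPolynomial Z E) (hp : constantCoeff p = 0) :
    p - lin p ∈ idealOfVars Z E ^ 2 := by
  rw [mem_pow_idealOfVars_iff']
  intro x hx
  rcases Nat.lt_or_ge (Finsupp.degree x) 1 with h | h
  · have : x = 0 := by
      rw [← Finsupp.degree_eq_zero_iff]; omega
    subst this
    rw [coeff_sub]
    have h1 : coeff 0 p = 0 := hp
    have h2 : coeff 0 (lin p) = 0 := by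
      unfold lin
      rw [coeff_sum]
      apply Finset.sum_eq_zero
      intro z _
      rw [coeff_C_mul, coeff_X, if_neg, mul_zero]
      intro h3
      have := congrArg Finsupp.degree h3
      simp at this
    rw [h1, h2, sub_zero]
  · have h1 : Finsupp.degree x = 1 := by omega
    have h5 : x ∈ Set.range (fun a : Z => Finsupp.single a 1) := by
      rw [Finsupp.range_single_one]; exact h1
    obtain ⟨z, rfl⟩ := h5
    rw [coeff_sub]
    have h2 : coeff (Finsupp.single z 1) (lin p) = coeff (Finsupp.single z 1) p := by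
      unfold lin
      rw [coeff_sum, Finset.sum_eq_single z]
      · rw [coeff_C_mul, coeff_X, if_pos rfl, mul_one]
      · intro z' _ hz'
        rw [coeff_C_mul, coeff_X, if_neg, mul_zero]
        intro h3
        exact hz' ((Finsupp.single_left_inj one_ne_zero).mp h3)
      · intro h; exact absurd (Finset.mem_univ _) h
    rw [h2, sub_self]

lemma lin_mem (p : MvPolynomial Z E) : lin p ∈ idealOfVars Z E := by
  unfold lin
  apply Ideal.sum_mem
  intro z _
  apply Ideal.mul_mem_left
  exact Ideal.subset_span ⟨z, rfl⟩

lemma pow_mem_I {p : MvPolynomial Z E} {a : ℕ} (hp : p ∈ idealOfVars Z E ^ a) (k : ℕ) :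
    p ^ k ∈ idealOfVars Z E ^ (a * k) := by
  rw [pow_mul]
  exact Ideal.pow_mem_pow hp k

/-- a product of elements of powers of the ideal -/
lemma prod_mem_I {ι : Type*} (s : Finset ι) (f : ι → MvPolynomial Z E) (a : ι → ℕ)
    (h : ∀ i ∈ s, f i ∈ idealOfVars Z E ^ a i) :
    ∏ i ∈ s, f i ∈ idealOfVars Z E ^ (∑ i ∈ s, a i) := by
  classical
  induction s using Finset.induction_on with
  | empty => simp
  | insert i s hi ih =>
    rw [Finset.prod_insert hi, Finset.sum_insert hi, pow_add]
    exact Ideal.mul_mem_mul (h i (Finset.mem_insert_self _ _))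
      (ih fun j hj => h j (Finset.mem_insert_of_mem hj))

/-- congruent elements have congruent powers -/
lemma pow_sub_pow_mem {p q : MvPolynomial Z E} (hp : p ∈ idealOfVars Z E)
    (hq : q ∈ idealOfVars Z E) (h : p - q ∈ idealOfVars Z E ^ 2) (k : ℕ) :
    p ^ k - q ^ k ∈ idealOfVars Z E ^ (k + 1) := by
  induction k with
  | zero => simp
  | succ k ih =>
    have e : p ^ (k + 1) - q ^ (k + 1) = (p ^ k - q ^ k) * p + q ^ k * (p - q) := by ring
    rw [e]
    apply Ideal.add_mem
    · rw [pow_succ (idealOfVars Z E) (k + 1)]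
      exact Ideal.mul_mem_mul ih hp
    · have e2 : k + 1 + 1 = k + 2 := rfl
      rw [e2, pow_add]
      exact Ideal.mul_mem_mul (Ideal.pow_mem_pow hq k) h

/-- congruent factors give congruent products -/
lemma prod_sub_prod_mem {ι : Type*} (s : Finset ι) (f g : ι → MvPolynomial Z E) (a : ι → ℕ)
    (hf : ∀ i ∈ s, f i ∈ idealOfVars Z E ^ a i) (hg : ∀ i ∈ s, g i ∈ idealOfVars Z E ^ a i)
    (h : ∀ i ∈ s, f i - g i ∈ idealOfVars Z E ^ (a i + 1)) :
    ∏ i ∈ s, f i - ∏ i ∈ s, g i ∈ idealOfVars Z E ^ (∑ i ∈ s, a i + 1) := by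
  classical
  induction s using Finset.induction_on with
  | empty => simp
  | insert i s hi ih =>
    rw [Finset.prod_insert hi, Finset.prod_insert hi, Finset.sum_insert hi]
    have e : f i * ∏ j ∈ s, f j - g i * ∏ j ∈ s, g j =
        (f i - g i) * ∏ j ∈ s, f j + g i * (∏ j ∈ s, f j - ∏ j ∈ s, g j) := by ring
    rw [e]
    apply Ideal.add_mem
    · have e2 : a i + ∑ j ∈ s, a j + 1 = (a i + 1) + ∑ j ∈ s, a j := by ring
      rw [e2, pow_add]
      exact Ideal.mul_mem_mul (h i (Finset.mem_insert_self _ _))
        (prod_mem_I s f a fun j hj => hf j (Finset.mem_insert_of_mem hj))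
    · rw [add_assoc, pow_add]
      exact Ideal.mul_mem_mul (hg i (Finset.mem_insert_self _ _))
        (ih (fun j hj => hf j (Finset.mem_insert_of_mem hj))
          (fun j hj => hg j (Finset.mem_insert_of_mem hj))
          (fun j hj => h j (Finset.mem_insert_of_mem hj)))

/-- the coefficients of a homogeneous element of a high power of the ideal vanish -/
lemma homog_eq_zero {p : MvPolynomial Z E} {d : ℕ} (hp : p.IsHomogeneous d)
    (h : p ∈ idealOfVars Z E ^ (d + 1)) : p = 0 := by
  ext m
  rw [coeff_zero]
  by_contra hm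
  have h1 := hp hm
  rw [mem_pow_idealOfVars_iff'] at h
  apply hm
  apply h
  have h2 : Finsupp.degree m = d := by
    rw [← h1, Finsupp.degree_eq_weight_one]
    rfl
  omega

lemma lin_homog (p : MvPolynomial Z E) : (lin p).IsHomogeneous 1 := by
  unfold lin
  apply IsHomogeneous.sum
  intro z _
  have := (isHomogeneous_C Z (coeff (Finsupp.single z 1) p)).mul (isHomogeneous_X E z)
  rwa [zero_add] at this

/-- the inverse of a linear substitution -/
lemma exists_inv (f : Z → MvPolynomial Z E)
    (hJ : (Matrix.of fun z z' => coeff (Finsupp.single z' 1) (f z)).det ≠ 0) :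
    ∃ ψ : MvPolynomial Z E →ₐ[E] MvPolynomial Z E, ∀ z, ψ (lin (f z)) = X z := by
  set J : Matrix Z Z E := Matrix.of fun z z' => coeff (Finsupp.single z' 1) (f z) with hJdef
  refine ⟨aeval fun z' => ∑ w, C (J⁻¹ z' w) * X w, fun z => ?_⟩
  unfold lin
  rw [map_sum]
  have h1 : ∀ z', aeval (fun z' => ∑ w, C (J⁻¹ z' w) * X w : Z → MvPolynomial Z E)
      (C (coeff (Finsupp.single z' 1) (f z)) * X z' : MvPolynomial Z E) =
      ∑ w, C (J z z' * J⁻¹ z' w) * X w := by
    intro z'
    rw [map_mul, aeval_X, aeval_C, algebraMap_eq, Finset.mul_sum]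
    apply Finset.sum_congr rfl
    intro w _
    rw [← mul_assoc, ← C_mul]
    rfl
  rw [Finset.sum_congr rfl fun z' _ => h1 z', Finset.sum_comm]
  have h2 : ∀ w, ∑ z', C (J z z' * J⁻¹ z' w) * (X w : MvPolynomial Z E) =
      C ((1 : Matrix Z Z E) z w) * X w := by
    intro w
    rw [← Finset.sum_mul, ← map_sum]
    congr 2
    rw [← Matrix.mul_apply, Matrix.mul_nonsing_inv _ (isUnit_iff_ne_zero.mpr hJ)]
  rw [Finset.sum_congr rfl fun w _ => h2 w, Finset.sum_eq_single z]
  · rw [Matrix.one_apply_eq, C_1, one_mul]
  · intro w _ hw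
    rw [Matrix.one_apply_ne (Ne.symm hw), C_0, zero_mul]
  · intro h; exact absurd (Finset.mem_univ _) h

/-- **Independence.** If the polynomials `f z` vanish at the origin with linearly independent linear
parts, and the values `w l` at the origin are linearly independent over the subfield `L`, then the
products of the powers of the `f z` and the `w l` are linearly independent over `L`. -/
theorem indep (f : Z → MvPolynomial Z E) (hf0 : ∀ z, constantCoeff (f z) = 0)
    (hJ : (Matrix.of fun z z' => coeff (Finsupp.single z' 1) (f z)).det ≠ 0) {Λ : Type*}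
    (w : Λ → MvPolynomial Z E) (hw : LinearIndependent L fun l => constantCoeff (w l)) :
    LinearIndependent L fun p : (Z → ℕ) × Λ => (∏ z, f z ^ p.1 z) * w p.2 := by
  classical
  obtain ⟨ψ, hψ⟩ := exists_inv f hJ
  rw [linearIndependent_iff']
  intro s g hg
  -- the degree of an exponent
  have hmem : ∀ p : (Z → ℕ) × Λ, (∏ z, f z ^ p.1 z) * w p.2 ∈ idealOfVars Z E ^ (∑ z, p.1 z) := by
    intro p
    apply Ideal.mul_mem_right
    apply prod_mem_I
    intro z _
    have := Ideal.pow_mem_pow (mem_I (f z) (hf0 z)) (p.1 z)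
    exact this
  have hlead : ∀ p : (Z → ℕ) × Λ, (∏ z, f z ^ p.1 z) * w p.2 -
      (∏ z, lin (f z) ^ p.1 z) * C (constantCoeff (w p.2)) ∈
      idealOfVars Z E ^ (∑ z, p.1 z + 1) := by
    intro p
    have e : (∏ z, f z ^ p.1 z) * w p.2 -
      (∏ z, lin (f z) ^ p.1 z) * C (constantCoeff (w p.2)) =
      (∏ z, f z ^ p.1 z - ∏ z, lin (f z) ^ p.1 z) * C (constantCoeff (w p.2)) +
      (∏ z, f z ^ p.1 z) * (w p.2 - C (constantCoeff (w p.2))) := by ring
    rw [e]
    apply Ideal.add_mem
    · apply Ideal.mul_mem_right
      apply prod_sub_prod_mem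
      · intro z _
        exact Ideal.pow_mem_pow (mem_I (f z) (hf0 z)) (p.1 z)
      · intro z _
        exact Ideal.pow_mem_pow (lin_mem (f z)) (p.1 z)
      · intro z _
        exact pow_sub_pow_mem (mem_I (f z) (hf0 z)) (lin_mem (f z)) (sub_lin_mem (f z) (hf0 z)) _
    · rw [pow_succ]
      apply Ideal.mul_mem_mul
      · apply prod_mem_I
        intro z _
        exact Ideal.pow_mem_pow (mem_I (f z) (hf0 z)) (p.1 z)
      · apply mem_I
        rw [map_sub, constantCoeff_C, sub_self]
  -- induction on the degree
  have key : ∀ d : ℕ, ∀ p ∈ s, ∑ z, p.1 z = d → g p = 0 := by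
    intro d
    induction d using Nat.strong_induction_on with
    | _ d ih =>
      -- the part of degree `d`
      set s' := s.filter fun p => ∑ z, p.1 z = d with hs'
      have h1 : ∑ p ∈ s', g p • ((∏ z, lin (f z) ^ p.1 z) * C (constantCoeff (w p.2))) ∈
          idealOfVars Z E ^ (d + 1) := by
        have h2 : ∑ p ∈ s', g p • ((∏ z, f z ^ p.1 z) * w p.2) ∈ idealOfVars Z E ^ (d + 1) := by
          have h3 : ∑ p ∈ s', g p • ((∏ z, f z ^ p.1 z) * w p.2) =
              - ∑ p ∈ s.filter (fun p => ¬ ∑ z, p.1 z = d), g p • ((∏ z, f z ^ p.1 z) * w p.2) := by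
            rw [eq_neg_iff_add_eq_zero, hs', Finset.sum_filter_add_sum_filter_not]
            exact hg
          rw [h3]
          apply Ideal.neg_mem_iff _ |>.mpr
          apply Ideal.sum_mem
          intro p hp
          rw [Finset.mem_filter] at hp
          rcases Nat.lt_or_gt_of_ne hp.2 with h4 | h4
          · rw [ih _ h4 p hp.1 rfl, zero_smul]
            exact Ideal.zero_mem _
          · rw [← algebraMap_smul E (g p), smul_eq_C_mul]
            apply Ideal.mul_mem_left
            exact Ideal.pow_le_pow_right h4 (hmem p)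
        have h5 : ∑ p ∈ s', g p • ((∏ z, lin (f z) ^ p.1 z) * C (constantCoeff (w p.2))) =
            ∑ p ∈ s', g p • ((∏ z, f z ^ p.1 z) * w p.2) -
            ∑ p ∈ s', g p • ((∏ z, f z ^ p.1 z) * w p.2 -
              (∏ z, lin (f z) ^ p.1 z) * C (constantCoeff (w p.2))) := by
          rw [← Finset.sum_sub_distrib]
          apply Finset.sum_congr rfl
          intro p _
          rw [← smul_sub, sub_sub_cancel]
        rw [h5]
        apply Ideal.sub_mem _ h2
        apply Ideal.sum_mem
        intro p hp
        rw [hs', Finset.mem_filter] at hp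
        rw [← algebraMap_smul E (g p), smul_eq_C_mul]
        apply Ideal.mul_mem_left
        have := hlead p
        rw [hp.2] at this
        exact this
      have h6 : (∑ p ∈ s', g p • ((∏ z, lin (f z) ^ p.1 z) *
          C (constantCoeff (w p.2)))).IsHomogeneous d := by
        apply IsHomogeneous.sum
        intro p hp
        rw [hs', Finset.mem_filter] at hp
        rw [← algebraMap_smul E (g p), smul_eq_C_mul]
        have h7 : (∏ z, lin (f z) ^ p.1 z).IsHomogeneous (∑ z, p.1 z) := by
          apply IsHomogeneous.prod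
          intro z _
          have := (lin_homog (f z)).pow (p.1 z)
          rwa [one_mul] at this
        rw [hp.2] at h7
        have h8 := (isHomogeneous_C Z (algebraMap L E (g p))).mul
          (h7.mul (isHomogeneous_C Z (constantCoeff (w p.2))))
        rwa [zero_add, add_zero] at h8
      have h9 := homog_eq_zero h6 h1
      have h10 := congrArg ψ h9
      rw [map_zero, map_sum] at h10
      have h11 : ∀ p : (Z → ℕ) × Λ, ψ (g p • ((∏ z, lin (f z) ^ p.1 z) *
          C (constantCoeff (w p.2)))) =
          monomial (Finsupp.equivFunOnFinite.symm p.1) (g p • constantCoeff (w p.2)) := by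
        intro p
        rw [← algebraMap_smul E (g p) ((∏ z, lin (f z) ^ p.1 z) * C (constantCoeff (w p.2))),
          map_smul, map_mul, map_prod]
        have e1 : ∀ z, ψ (lin (f z) ^ p.1 z) = X z ^ p.1 z := by
          intro z
          rw [map_pow, hψ]
        rw [Finset.prod_congr rfl fun z _ => e1 z]
        have e2 : ψ (C (constantCoeff (w p.2))) = C (constantCoeff (w p.2)) := by
          rw [← algebraMap_eq, AlgHom.commutes]
        rw [e2, ← algebraMap_smul E (g p) (constantCoeff (w p.2)), monomial_eq, smul_eq_mul,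
          C_mul, smul_eq_C_mul]
        rw [Finsupp.prod_fintype _ _ (fun z => pow_zero _)]
        simp only [Finsupp.equivFunOnFinite_symm_apply_apply]
        ring
      rw [Finset.sum_congr rfl fun p _ => h11 p] at h10
      intro p hp hpd
      -- the coefficient at the exponent of `p`
      have h12 := congrArg (coeff (Finsupp.equivFunOnFinite.symm p.1)) h10
      rw [coeff_sum, coeff_zero] at h12
      have h13 : ∑ l ∈ (s.filter fun p' => p'.1 = p.1).image Prod.snd,
          g (p.1, l) • constantCoeff (w l) = 0 := by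
        rw [← h12, Finset.sum_image]
        · have h14 : s.filter (fun p' => p'.1 = p.1) ⊆ s' := by
            intro p' hp'
            rw [Finset.mem_filter] at hp'
            rw [hs', Finset.mem_filter]
            exact ⟨hp'.1, by rw [hp'.2]; exact hpd⟩
          rw [← Finset.sum_subset h14]
          · apply Finset.sum_congr rfl
            intro p' hp'
            rw [Finset.mem_filter] at hp'
            rw [coeff_monomial, if_pos (by rw [hp'.2])]
            rw [← hp'.2]
          · intro p' hp' hn
            rw [coeff_monomial, if_neg]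
            intro h15
            apply hn
            rw [Finset.mem_filter]
            rw [hs', Finset.mem_filter] at hp'
            exact ⟨hp'.1, Finsupp.equivFunOnFinite.symm.injective h15⟩
        · intro a ha b hb hab
          rw [Finset.coe_filter] at ha hb
          exact Prod.ext (ha.2.trans hb.2.symm) hab
      have h16 := (linearIndependent_iff'.mp hw) _ (fun l => g (p.1, l)) h13 p.2
        (Finset.mem_image.mpr ⟨p, Finset.mem_filter.mpr ⟨hp, rfl⟩, rfl⟩)
      exact h16
  intro p hp
  exact key _ p hp rfl

end Pool.Agent.TH152.DG
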