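import Pool.Agent.TH152.DG.Prog
import Pool.Agent.W944.CircBorder

/-! # Perturbation of substitutions, and limits of programs with determinants -/

set_option autoImplicit false
set_option linter.unusedSectionVars false

open Module MvPolynomial

namespace Pool.Agent.TH152.DG

open Pool.Agent.H546R2.SL (Nm exists_degree_bound spanning finrank_restrict Ex finite_Ex mem_Ex)
open Pool.Agent.H632R2.Border

variable {Ω L : Type*} [Field Ω] [Field L] {σ ι : Type*}
  {O : ValuationSubring L} {φ : O →+* Ω} {j : Ω →+* O}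

/-- perturbation of a substitution -/
lemma exists_perturb [Infinite L] (hj : ∀ c, φ (j c) = c)
    (hinf : ∀ c : σ → L, ∃ T : Set L, T.Infinite ∧ ∀ t ∈ T, ∀ v, ∃ h : t * c v ∈ O,
      φ ⟨t * c v, h⟩ = 0)
    (S : σ → MvPolynomial ι Ω) (hS : ∀ v, (S v).totalDegree ≤ 1) (G : MvPolynomial σ L)
    (hG : G ≠ 0) : ∃ S' : σ → MvPolynomial ι O, (∀ v, map φ (S' v) = S v) ∧
      (∀ v, (S' v).totalDegree ≤ 1) ∧ aeval (fun v => map O.subtype (S' v)) G ≠ 0 := by
  classical
  obtain ⟨p, hp⟩ : ∃ p : σ → L, eval p G ≠ 0 := by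
    by_contra hcon
    push Not at hcon
    exact hG (MvPolynomial.funext fun x => by rw [hcon x, map_zero])
  set s0 : σ → L := fun v => O.subtype (j (coeff 0 (S v))) with hs0
  set c : σ → L := fun v => p v - s0 v with hc
  obtain ⟨T, hT, hTm⟩ := hinf c
  set g : Polynomial L := aeval (fun v => Polynomial.C (s0 v) + Polynomial.X *
    Polynomial.C (c v)) G with hg
  have hge : ∀ t, Polynomial.eval t g = eval (fun v => s0 v + t * c v) G := by
    intro t
    have h1 : Polynomial.eval t g = Polynomial.aeval t g := by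
      rw [Polynomial.coe_aeval_eq_eval]
    rw [h1, hg, ← AlgHom.comp_apply, comp_aeval, ← MvPolynomial.coe_aeval_eq_eval]
    simp only [map_add, map_mul, Polynomial.aeval_C, Polynomial.aeval_X, Algebra.algebraMap_self,
      RingHom.id_apply]
    rfl
  have hg0 : g ≠ 0 := by
    intro h
    have h1 := hge 1
    rw [h, Polynomial.eval_zero] at h1
    apply hp
    rw [h1]
    congr 2
    funext v
    rw [hc]
    ring
  obtain ⟨t, htT, htg⟩ : ∃ t ∈ T, Polynomial.eval t g ≠ 0 := by
    by_contra hcon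
    push Not at hcon
    apply hT
    apply Set.Finite.subset (g.roots.toFinset.finite_toSet)
    intro t ht
    rw [Finset.mem_coe, Multiset.mem_toFinset, Polynomial.mem_roots hg0]
    exact hcon t ht
  choose hm hφ using hTm t htT
  refine ⟨fun v => map j (S v) + C ⟨t * c v, hm v⟩, ?_, ?_, ?_⟩
  · intro v
    rw [map_add, map_map, map_C, hφ]
    have : φ.comp j = RingHom.id Ω := RingHom.ext hj
    rw [this, map_id, map_zero, add_zero]
  · intro v
    refine (totalDegree_add _ _).trans (max_le ?_ ?_)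
    · exact (totalDegree_map_le _ _).trans (hS v)
    · rw [totalDegree_C]
      exact Nat.zero_le _
  · intro h
    apply htg
    rw [hge]
    have h1 := congrArg (eval (0 : ι → L)) h
    rw [map_zero] at h1
    rw [← h1, ← MvPolynomial.coe_aeval_eq_eval, ← MvPolynomial.coe_aeval_eq_eval]
    have h2 := comp_aeval (R := L) (fun v => map O.subtype (map j (S v) + C ⟨t * c v, hm v⟩))
      (aeval (0 : ι → L))
    have h3 := DFunLike.congr_fun h2 G
    rw [AlgHom.comp_apply] at h3
    have hfun : (fun i => aeval (0 : ι → L) (map O.subtype (map j (S i) + C ⟨t * c i, hm i⟩))) =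
        fun v => s0 v + t * c v := by
      funext v
      rw [map_add, map_C, map_add, map_map, aeval_zero, aeval_zero, constantCoeff_C,
        constantCoeff_map, constantCoeff_eq]
      rfl
    change _ = aeval 0 (aeval _ G)
    rw [h3, hfun]
    rfl

/-- a program whose determinants do not vanish -/
lemma exists_nonzero {s : ℕ} {N : Fin s → ℕ}
    {l : (j : Fin s) → Fin (N j) → Fin (N j) → MvPolynomial σ L}
    (hl : ∀ j a b, (l j a b).totalDegree ≤ 1)
    {γ : (j : Fin s) → Fin (N j) → Fin (N j) → Fin s → L} {f : Fin s → L}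
    {A : (j : Fin s) → Matrix (Fin (N j)) (Fin (N j)) (MvPolynomial σ L)}
    (hA : ∀ j a b, A j a b = l j a b + ∑ i ∈ Finset.Iio j, γ j a b i • (A i).det) :
    ∃ (l' : (j : Fin s) → Fin (N j) → Fin (N j) → MvPolynomial σ L)
      (γ' : (j : Fin s) → Fin (N j) → Fin (N j) → Fin s → L) (f' : Fin s → L)
      (A' : (j : Fin s) → Matrix (Fin (N j)) (Fin (N j)) (MvPolynomial σ L)),
      (∀ j a b, (l' j a b).totalDegree ≤ 1) ∧
      (∀ j a b, A' j a b = l' j a b + ∑ i ∈ Finset.Iio j, γ' j a b i • (A' i).det) ∧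
      (∀ j, (A' j).det ≠ 0) ∧ ∑ j, f j • (A j).det = ∑ j, f' j • (A' j).det := by
  classical
  set A' : (j : Fin s) → Matrix (Fin (N j)) (Fin (N j)) (MvPolynomial σ L) := fun j =>
    if (A j).det = 0 then 1 else A j with hA'
  have hsm : ∀ (c : L) i, c • (A i).det = (if (A i).det = 0 then 0 else c) • (A' i).det := by
    intro c i
    simp only [hA']
    split_ifs with h
    · rw [h, smul_zero, zero_smul]
    · rfl
  refine ⟨fun j a b => if (A j).det = 0 then C ((1 : Matrix (Fin (N j)) (Fin (N j)) L) a b) else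
      l j a b, fun j a b i => if (A j).det = 0 then 0 else if (A i).det = 0 then 0 else γ j a b i,
    fun i => if (A i).det = 0 then 0 else f i, A', ?_, ?_, ?_, ?_⟩
  · intro j a b
    dsimp only
    split_ifs
    · rw [totalDegree_C]
      exact Nat.zero_le _
    · exact hl j a b
  · intro j a b
    dsimp only
    by_cases h : (A j).det = 0
    · simp only [if_pos h, zero_smul, Finset.sum_const_zero, add_zero]
      simp only [hA', if_pos h]
      rw [Matrix.one_apply, Matrix.one_apply]
      split_ifs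
      · rw [map_one]
      · rw [map_zero]
    · simp only [if_neg h]
      have h1 : A' j = A j := by simp only [hA', if_neg h]
      rw [h1, hA j a b]
      congr 1
      apply Finset.sum_congr rfl
      intro i _
      exact hsm _ i
  · intro j
    simp only [hA']
    split_ifs with h
    · rw [Matrix.det_one]
      exact one_ne_zero
    · exact h
  · apply Finset.sum_congr rfl
    intro i _
    exact hsm _ i

/-- **The dimension inequality for limits of programs.** -/
theorem border_dim [IsAlgClosed Ω] [Infinite L] [Fintype ι] (hj : ∀ c, φ (j c) = c)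
    (hinf : ∀ c : σ → L, ∃ T : Set L, T.Infinite ∧ ∀ t ∈ T, ∀ v, ∃ h : t * c v ∈ O,
      φ ⟨t * c v, h⟩ = 0)
    (S : σ → MvPolynomial ι Ω) (hS : ∀ v, (S v).totalDegree ≤ 1) (f : MvPolynomial σ Ω)
    {V : Type*} (y : V → MvPolynomial ι Ω) (e : ℕ) (he : 0 < e)
    (hy : ∀ v, (y v).IsHomogeneous e)
    (hz : ∀ x : ι → Ω, (∀ v, eval x (y v) = 0) → x = 0)
    (hyS : ∀ v, ∃ (c : Ω) (u : σ), y v = C c * aeval S (pderiv u f))
    (hι : 0 < Fintype.card ι) {s : ℕ} {N : Fin s → ℕ}
    {l : (j : Fin s) → Fin (N j) → Fin (N j) → MvPolynomial σ L}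
    (hl : ∀ j a b, (l j a b).totalDegree ≤ 1)
    {γ : (j : Fin s) → Fin (N j) → Fin (N j) → Fin s → L} {gm : Fin s → L}
    {A : (j : Fin s) → Matrix (Fin (N j)) (Fin (N j)) (MvPolynomial σ L)}
    (hA : ∀ j a b, A j a b = l j a b + ∑ i ∈ Finset.Iio j, γ j a b i • (A i).det)
    (lf : MvPolynomial σ L) (hlf : lf.totalDegree ≤ 1)
    (F : MvPolynomial σ O) (hF : map O.subtype F = lf + ∑ j, gm j • (A j).det)
    (hf : map φ F = f) :
    ∃ c₀ : ℕ, ∀ (τ : ℕ) (T : Fin s → ℕ) (u r : ℕ),
      ((∏ z, (T z + 1)) * (u + s).choose s * (r + ∑ j, N j * N j).choose (∑ j, N j * N j)) *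
        (e * τ + Fintype.card ι).choose (Fintype.card ι) ≤
      (Fintype.card ι + (s + s) + 1).multichoose
          (τ + c₀ + (∑ z, max (N z) 1 * T z + 2 * u + r)) *
        (∑ j, N j * N j + 1).multichoose (τ + c₀ + (1 * u + r)) := by
  classical
  obtain ⟨l', γ', gm', A', hl', hA', hd', hsum⟩ := exists_nonzero (f := gm) hl hA
  rw [hsum] at hF
  obtain ⟨S1, hS1, hS1d, hS1n⟩ := exists_perturb hj hinf S hS (∏ j, (A' j).det)
    (Finset.prod_ne_zero_iff.mpr fun j _ => hd' j)
  set S' : σ → MvPolynomial ι L := fun v => map O.subtype (S1 v) with hS'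
  have hS'd : ∀ v, (S' v).totalDegree ≤ 1 := fun v => (totalDegree_map_le _ _).trans (hS1d v)
  have hd2 : ∀ j, aeval S' (A' j).det ≠ 0 := by
    intro j
    rw [map_prod, Finset.prod_ne_zero_iff] at hS1n
    exact hS1n j (Finset.mem_univ j)
  obtain ⟨W, hWfg, hW1, hWd, hWdim⟩ := prog_dim S' hS'd hl' (f := gm') hA' hd2 lf hlf
  rw [← hF] at hWd
  have hyW : ∀ v, y v ∈ spec O φ j hj W := by
    intro v
    obtain ⟨c, u, hcu⟩ := hyS v
    rw [hcu, ← smul_eq_C_mul]
    apply Submodule.smul_mem
    refine ⟨aeval S1 (pderiv u F), ?_, ?_⟩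
    · have h1 := hWd u
      rw [map_aeval_comm, ← pderiv_map]
      exact h1
    · rw [map_aeval_comm, ← pderiv_map, hf]
      have h2 : (fun v => map φ (S1 v)) = S := funext hS1
      rw [h2]
  obtain ⟨M, hM⟩ := exists_degree_bound y hz
  have hspan := spanning y e he hy M hM _ (restrict_le_spec (O := O) (φ := φ) (j := j) (hj := hj)
    hW1) hyW
  refine ⟨M + e, fun τ T u r => ?_⟩
  refine le_trans ?_ (hWdim (τ + (M + e)) T u r)
  apply Nat.mul_le_mul_left
  have h1 := hspan (e * τ)
  rw [Nat.mul_div_cancel_left _ he] at h1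
  have h2 := h1.trans (spec_pow_le W (τ + (M + e)))
  have h3 := spec_fg (O := O) (φ := φ) (j := j) (hj := hj) (hWfg.pow (τ + (M + e)))
  have : FiniteDimensional Ω ↥(spec O φ j hj (W ^ (τ + (M + e)))) :=
    Module.Finite.iff_fg.mpr h3.1
  calc (e * τ + Fintype.card ι).choose (Fintype.card ι) ≤ Nm ι (e * τ) :=
        Pool.Agent.W944.Cx.Nm_ge hι _
    _ = finrank Ω ↥(restrictTotalDegree ι Ω (e * τ)) := (finrank_restrict _).symm
    _ ≤ finrank Ω ↥(spec O φ j hj (W ^ (τ + (M + e)))) := Submodule.finrank_mono h2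
    _ ≤ _ := h3.2

/-- the perturbations over the local ring at `0` -/
lemma O0_perturb [Finite σ] (c : σ → RatFunc Ω) : ∃ T : Set (RatFunc Ω), T.Infinite ∧
    ∀ t ∈ T, ∀ v, ∃ h : t * c v ∈ O0 Ω, φ0 Ω ⟨t * c v, h⟩ = 0 := by
  classical
  have := Fintype.ofFinite σ
  set D : Polynomial Ω := ∏ v, (c v).denom with hD
  have hD0 : D ≠ 0 := Finset.prod_ne_zero_iff.mpr fun v _ => RatFunc.denom_ne_zero _
  refine ⟨Set.range fun n : ℕ => algebraMap (Polynomial Ω) (RatFunc Ω)
    (Polynomial.X ^ (n + 1) * D), ?_, ?_⟩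
  · apply Set.infinite_range_of_injective
    intro a b hab
    have h1 := RatFunc.algebraMap_injective Ω hab
    have h2 := mul_right_cancel₀ hD0 h1
    have h3 := congrArg Polynomial.natDegree h2
    rw [Polynomial.natDegree_X_pow, Polynomial.natDegree_X_pow] at h3
    omega
  · rintro _ ⟨n, rfl⟩ v
    dsimp only
    have h1 : algebraMap (Polynomial Ω) (RatFunc Ω) (Polynomial.X ^ (n + 1) * D) * c v =
        algebraMap (Polynomial Ω) (RatFunc Ω) (Polynomial.X ^ (n + 1) *
          ((∏ w ∈ Finset.univ.erase v, (c w).denom) * (c v).num)) := by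
      have h2 : D = (c v).denom * ∏ w ∈ Finset.univ.erase v, (c w).denom := by
        rw [hD, Finset.mul_prod_erase _ (fun v => (c v).denom) (Finset.mem_univ v)]
      have h3 : algebraMap (Polynomial Ω) (RatFunc Ω) (c v).denom * c v =
          algebraMap (Polynomial Ω) (RatFunc Ω) (c v).num := by
        conv_lhs => rw [← RatFunc.num_div_denom (c v)]
        rw [RatFunc.num_div_denom (c v)]
        have h4 : algebraMap (Polynomial Ω) (RatFunc Ω) (c v).denom ≠ 0 :=
          (map_ne_zero_iff _ (RatFunc.algebraMap_injective Ω)).mpr (RatFunc.denom_ne_zero _)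
        rw [mul_comm, ← eq_div_iff h4]
        exact (RatFunc.num_div_denom (c v)).symm
      rw [h2, map_mul, map_mul, map_mul, map_mul, ← h3]
      ring
    have h5 : ∀ p : Polynomial Ω, algebraMap (Polynomial Ω) (RatFunc Ω) p ∈ O0 Ω := by
      intro p
      rw [mem_O0, RatFunc.denom_algebraMap]; simp
    refine ⟨by rw [h1]; exact h5 _, ?_⟩
    have h6 := φ0_poly Ω (Polynomial.X ^ (n + 1) *
          ((∏ w ∈ Finset.univ.erase v, (c w).denom) * (c v).num)) (h5 _)
    have h7 : (⟨algebraMap (Polynomial Ω) (RatFunc Ω) (Polynomial.X ^ (n + 1) * D) * c v,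
        by rw [h1]; exact h5 _⟩ : O0 Ω) = ⟨algebraMap (Polynomial Ω) (RatFunc Ω)
          (Polynomial.X ^ (n + 1) * ((∏ w ∈ Finset.univ.erase v, (c w).denom) * (c v).num)),
          h5 _⟩ := Subtype.ext h1
    rw [h7, h6]
    simp

end Pool.Agent.TH152.DG
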