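import Pool.Agent.TH152.DG.Sys2
import Pool.Agent.W944.Jacobi
import Pool.Agent.W944.Smooth

/-! # Programs with determinants: derivatives, and the dimension inequality -/

set_option autoImplicit false
set_option linter.unusedSectionVars false

open Module MvPolynomial

namespace Pool.Agent.TH152.DG

open Pool.Agent.W944 (der_det pderiv_affine)

/-- the solution of the adjoint equations -/
lemma exists_adj {R : Type*} [CommRing R] {s : ℕ} (f : Fin s → R) (c : Fin s → Fin s → R) :
    ∃ lam : Fin s → R, ∀ i, lam i = f i + ∑ j ∈ Finset.Ioi i, lam j * c j i := by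
  classical
  let F : (i : Fin s) → ((j : Fin s) → j > i → R) → R := fun i rec =>
    f i + ∑ j ∈ (Finset.Ioi i).attach, rec j.1 (Finset.mem_Ioi.mp j.2) * c j.1 i
  refine ⟨WellFounded.fix (r := (· > ·)) wellFounded_gt F, fun i => ?_⟩
  rw [WellFounded.fix_eq]
  simp only [F]
  congr 1
  rw [← Finset.sum_attach (Finset.Ioi i)]

variable {L : Type*} [Field L] {σ ι : Type*} {s : ℕ} {N : Fin s → ℕ}

/-- the derivative of the result of a program -/
lemma der_prog {l : (j : Fin s) → Fin (N j) → Fin (N j) → MvPolynomial σ L}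
    {γ : (j : Fin s) → Fin (N j) → Fin (N j) → Fin s → L} {f : Fin s → L}
    {A : (j : Fin s) → Matrix (Fin (N j)) (Fin (N j)) (MvPolynomial σ L)}
    (hA : ∀ j a b, A j a b = l j a b + ∑ i ∈ Finset.Iio j, γ j a b i • (A i).det)
    {lam : Fin s → MvPolynomial σ L}
    (hlam : ∀ i, lam i = algebraMap L (MvPolynomial σ L) (f i) + ∑ j ∈ Finset.Ioi i, lam j *
      ∑ a, ∑ b, γ j a b i • (A j).adjugate b a) (D : Derivation L (MvPolynomial σ L)
      (MvPolynomial σ L)) :
    D (∑ j, f j • (A j).det) =
      ∑ j, lam j * ∑ a, ∑ b, (A j).adjugate b a * D (l j a b) := by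
  -- the derivative of a determinant
  have h1 : ∀ j, D (A j).det = ∑ a, ∑ b, (A j).adjugate b a * D (l j a b) +
      ∑ i ∈ Finset.Iio j, (∑ a, ∑ b, γ j a b i • (A j).adjugate b a) * D (A i).det := by
    intro j
    rw [der_det]
    rw [Finset.sum_comm]
    have h2 : ∀ a b, (A j).adjugate b a * D (A j a b) = (A j).adjugate b a * D (l j a b) +
        ∑ i ∈ Finset.Iio j, (γ j a b i • (A j).adjugate b a) * D (A i).det := by
      intro a b
      rw [hA j a b, map_add, map_sum, mul_add, Finset.mul_sum]
      congr 1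
      apply Finset.sum_congr rfl
      intro i _
      rw [Derivation.map_smul, smul_mul_assoc, mul_smul_comm]
    rw [Finset.sum_congr rfl fun a _ => Finset.sum_congr rfl fun b _ => h2 a b]
    simp only [Finset.sum_add_distrib]
    congr 1
    have h3 : ∀ a, ∑ b, ∑ i ∈ Finset.Iio j, (γ j a b i • (A j).adjugate b a) * D (A i).det =
        ∑ i ∈ Finset.Iio j, (∑ b, γ j a b i • (A j).adjugate b a) * D (A i).det := by
      intro a
      rw [Finset.sum_comm]
      apply Finset.sum_congr rfl
      intro i _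
      rw [Finset.sum_mul]
    rw [Finset.sum_congr rfl fun a _ => h3 a, Finset.sum_comm]
    apply Finset.sum_congr rfl
    intro i _
    rw [Finset.sum_mul]
  have h4 : ∀ j, lam j * ∑ a, ∑ b, (A j).adjugate b a * D (l j a b) = lam j * D (A j).det -
      ∑ i ∈ Finset.Iio j, lam j * (∑ a, ∑ b, γ j a b i • (A j).adjugate b a) * D (A i).det := by
    intro j
    have h41 : lam j * ∑ i ∈ Finset.Iio j, (∑ a, ∑ b, γ j a b i • (A j).adjugate b a) *
        D (A i).det = ∑ i ∈ Finset.Iio j,
          lam j * (∑ a, ∑ b, γ j a b i • (A j).adjugate b a) * D (A i).det := by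
      rw [Finset.mul_sum]
      exact Finset.sum_congr rfl fun i _ => by rw [mul_assoc]
    rw [h1 j, mul_add, h41, add_sub_cancel_right]
  rw [Finset.sum_congr rfl fun j _ => h4 j, Finset.sum_sub_distrib]
  -- interchange the order of summation
  have h5 : ∑ j, ∑ i ∈ Finset.Iio j, lam j * (∑ a, ∑ b, γ j a b i • (A j).adjugate b a) *
      D (A i).det = ∑ i, (∑ j ∈ Finset.Ioi i, lam j *
        ∑ a, ∑ b, γ j a b i • (A j).adjugate b a) * D (A i).det := by
    rw [Finset.sum_comm' (t' := Finset.univ) (s' := fun i => Finset.Ioi i)]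
    · apply Finset.sum_congr rfl
      intro i _
      rw [Finset.sum_mul]
    · intro j i
      simp
  rw [h5, ← Finset.sum_sub_distrib, map_sum]
  apply Finset.sum_congr rfl
  intro i _
  rw [Derivation.map_smul, ← sub_mul]
  have h6 : lam i - ∑ j ∈ Finset.Ioi i, lam j * ∑ a, ∑ b, γ j a b i • (A j).adjugate b a =
      algebraMap L (MvPolynomial σ L) (f i) := by
    rw [sub_eq_iff_eq_add]
    exact hlam i
  rw [h6, ← Algebra.smul_def]

variable [Fintype ι]

/-- **The dimension inequality of a program after a substitution.** -/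
theorem prog_dim (S' : σ → MvPolynomial ι L) (hS' : ∀ v, (S' v).totalDegree ≤ 1)
    {l : (j : Fin s) → Fin (N j) → Fin (N j) → MvPolynomial σ L}
    (hl : ∀ j a b, (l j a b).totalDegree ≤ 1)
    {γ : (j : Fin s) → Fin (N j) → Fin (N j) → Fin s → L} {f : Fin s → L}
    {A : (j : Fin s) → Matrix (Fin (N j)) (Fin (N j)) (MvPolynomial σ L)}
    (hA : ∀ j a b, A j a b = l j a b + ∑ i ∈ Finset.Iio j, γ j a b i • (A i).det)
    (hd : ∀ j, aeval S' (A j).det ≠ 0) (lf : MvPolynomial σ L) (hlf : lf.totalDegree ≤ 1) :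
    ∃ W : Submodule L (MvPolynomial ι L), W.FG ∧ restrictTotalDegree ι L 1 ≤ W ∧
      (∀ v, aeval S' (pderiv v (lf + ∑ j, f j • (A j).det)) ∈ W) ∧
      ∀ (τ : ℕ) (T : Fin s → ℕ) (u r : ℕ),
      ((∏ z, (T z + 1)) * (u + s).choose s * (r + ∑ j, N j * N j).choose (∑ j, N j * N j)) *
        finrank L ↥(W ^ τ) ≤
      (Fintype.card ι + (s + s) + 1).multichoose (τ + (∑ z, max (N z) 1 * T z + 2 * u + r)) *
        (∑ j, N j * N j + 1).multichoose (τ + (1 * u + r)) := by
  classical
  -- the field of rational functions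
  set E := FractionRing (MvPolynomial ι L) with hE
  set ψ : MvPolynomial ι L →ₐ[L] E := (Algebra.ofId (MvPolynomial ι L) E).restrictScalars L
    with hψ
  have hψinj : Function.Injective ψ := IsFractionRing.injective (MvPolynomial ι L) E
  set Φ : MvPolynomial σ L →ₐ[L] E := ψ.comp (aeval S') with hΦ
  obtain ⟨lam, hlam⟩ := exists_adj (fun i => algebraMap L (MvPolynomial σ L) (f i))
    (fun j i => ∑ a, ∑ b, γ j a b i • (A j).adjugate b a)
  -- the data over the field
  set x : ι → E := fun i => ψ (X i) with hx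
  set A' : (j : Fin s) → Matrix (Fin (N j)) (Fin (N j)) E := fun j => (A j).map Φ with hA'
  have hdet : ∀ j, (A' j).det = Φ (A j).det := by
    intro j
    rw [hA', AlgHom.map_det]
    rfl
  have hadj : ∀ j a b, (A' j).adjugate a b = Φ ((A j).adjugate a b) := by
    intro j a b
    have h := AlgHom.map_adjugate Φ (A j)
    rw [AlgHom.mapMatrix_apply, AlgHom.mapMatrix_apply] at h
    rw [hA', ← h]
    rfl
  have hlx : ∀ j a b, Φ (l j a b) ∈ xs L x := by
    intro j a b
    have h1 := Pool.Agent.W944.totalDegree_aeval_le S' hS' (l j a b) (hl j a b)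
    have h2 := Pool.Agent.W944.algebraMap_mem_xsp (B := E) (aeval S' (l j a b)) h1
    exact h2
  have hA2 : ∀ j a b, A' j a b = Φ (l j a b) +
      ∑ i ∈ Finset.Iio j, γ j a b i • (A' i).det := by
    intro j a b
    change Φ (A j a b) = _
    rw [hA j a b, map_add, map_sum]
    congr 1
    apply Finset.sum_congr rfl
    intro i _
    rw [map_smul, hdet]
  have hd2 : ∀ j, (A' j).det ≠ 0 := by
    intro j
    rw [hdet]
    exact (map_ne_zero_iff ψ hψinj).mpr (hd j)
  have hlam2 : ∀ i, Φ (lam i) = algebraMap L E (f i) + ∑ j ∈ Finset.Ioi i, Φ (lam j) *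
      ∑ a, ∑ b, γ j a b i • (A' j).adjugate b a := by
    intro i
    rw [hlam i, map_add, AlgHom.commutes, map_sum]
    congr 1
    apply Finset.sum_congr rfl
    intro j _
    rw [map_mul, map_sum]
    congr 1
    apply Finset.sum_congr rfl
    intro a _
    rw [map_sum]
    apply Finset.sum_congr rfl
    intro b _
    rw [map_smul, hadj]
  set M : Submodule L E := (sp2 (L := L) (Zt := Fin s) (Zm := Fin s) (Zl := Ent N) x 1 1).map
    (evl L (val A' fun j => Φ (lam j))).toLinearMap with hM
  have hMfg : M.FG := (sp2_fg x 1 1).map _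
  have : FiniteDimensional L ↥M := Module.Finite.iff_fg.mpr hMfg
  set W : Submodule L (MvPolynomial ι L) := M.comap ψ.toLinearMap with hW
  have hWM : W.map ψ.toLinearMap ≤ M := Submodule.map_comap_le _ _
  have hWfg : W.FG := by
    apply Submodule.fg_of_fg_map_injective ψ.toLinearMap hψinj
    have : FiniteDimensional L ↥(W.map ψ.toLinearMap) :=
      Submodule.finiteDimensional_of_le hWM
    exact Module.Finite.iff_fg.mp this
  refine ⟨W, hWfg, ?_, ?_, ?_⟩
  · intro p hp
    rw [hW, Submodule.mem_comap]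
    apply xs_le_map
    exact Pool.Agent.W944.algebraMap_mem_xsp (B := E) p ((mem_restrictTotalDegree _ _ _).mp hp)
  · intro v
    rw [hW, Submodule.mem_comap]
    rw [map_add, der_prog hA hlam (pderiv v), map_add]
    obtain ⟨c, hc⟩ := pderiv_affine lf hlf v
    have h1 : ∀ j a b, ∃ c : L, pderiv v (l j a b) = C c := fun j a b =>
      pderiv_affine (l j a b) (hl j a b) v
    choose β hβ using h1
    have h2 := der_mem_map (A := A') (lam := fun j => Φ (lam j)) x hd2 c β
    have h3 : ψ (aeval S' (pderiv v lf) + aeval S' (∑ j, lam j *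
        ∑ a, ∑ b, (A j).adjugate b a * pderiv v (l j a b))) =
        algebraMap L E c + ∑ j, Φ (lam j) * ∑ a, ∑ b, β j a b • (A' j).adjugate b a := by
      rw [map_add, hc]
      have e1 : ψ (aeval S' (C c : MvPolynomial σ L)) = algebraMap L E c := by
        rw [← algebraMap_eq, AlgHom.commutes, AlgHom.commutes]
      rw [e1]
      congr 1
      change Φ _ = _
      rw [map_sum]
      apply Finset.sum_congr rfl
      intro j _
      rw [map_mul, map_sum]
      congr 1
      apply Finset.sum_congr rfl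
      intro a _
      rw [map_sum]
      apply Finset.sum_congr rfl
      intro b _
      rw [hβ, mul_comm, ← smul_eq_C_mul, map_smul, hadj]
    change ψ _ ∈ M
    rw [h3]
    exact h2
  · intro τ T u r
    have h1 := sys_dim x hlx hA2 hd2 hlam2 T u r τ τ
    refine le_trans ?_ h1
    apply Nat.mul_le_mul_left
    have h2 : finrank L ↥(W ^ τ) = finrank L ↥((W ^ τ).map ψ.toLinearMap) :=
      (LinearEquiv.finrank_eq (Submodule.equivMapOfInjective _ hψinj _))
    rw [h2, Submodule.map_pow]
    have h3 : (W.map ψ.toLinearMap) ^ τ ≤ (sp2 (L := L) (Zt := Fin s) (Zm := Fin s)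
        (Zl := Ent N) x τ τ).map (evl L (val A' fun j => Φ (lam j))).toLinearMap := by
      have h4 : (sp2 (L := L) (Zt := Fin s) (Zm := Fin s) (Zl := Ent N) x τ τ) =
          (sp2 x 1 1) ^ τ := by
        rw [sp2_pow, one_mul]
      rw [h4, Submodule.map_pow]
      exact pow_le_pow_left' hWM τ
    have : FiniteDimensional L ↥((sp2 (L := L) (Zt := Fin s) (Zm := Fin s)
        (Zl := Ent N) x τ τ).map (evl L (val A' fun j => Φ (lam j))).toLinearMap) :=
      Module.Finite.iff_fg.mpr ((sp2_fg x τ τ).map _)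
    exact Submodule.finrank_mono h3

end Pool.Agent.TH152.DG
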