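import Pool.Agent.TH152.DG.Dim
import Pool.Agent.W944.CircBorder

/-! # Spaces of polynomials in base and light unknowns -/

set_option autoImplicit false
set_option linter.unusedSectionVars false

open Module MvPolynomial

namespace Pool.Agent.TH152.DG

open Pool.Agent.W944 (finrank_pow_span_le finrank_mul_le)
open Pool.Agent.H546R2.SL (pow_mono_of_one_mem Ex mem_Ex finite_Ex Nm)

/-- the exponents with bounded sum -/
lemma exists_expo (κ : Type*) [Fintype κ] [DecidableEq κ] (u : ℕ) :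
    ∃ F : Finset (κ → ℕ), (∀ j ∈ F, ∑ z, j z ≤ u) ∧
      (u + Fintype.card κ).choose (Fintype.card κ) ≤ F.card := by
  classical
  rcases Nat.eq_zero_or_pos (Fintype.card κ) with h0 | h0
  · refine ⟨{0}, ?_, ?_⟩
    · intro j hj
      rw [Finset.mem_singleton] at hj
      subst hj
      simp
    · rw [h0]
      simp
  · have hfin : (Ex κ u).Finite := Set.toFinite _
    refine ⟨hfin.toFinset.image (fun m : κ →₀ ℕ => (⇑m : κ → ℕ)), ?_, ?_⟩
    · intro j hj
      obtain ⟨m, hm, rfl⟩ := Finset.mem_image.mp hj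
      rw [Set.Finite.mem_toFinset, mem_Ex] at hm
      exact hm
    · have hinj : Function.Injective (fun m : κ →₀ ℕ => (⇑m : κ → ℕ)) :=
        fun a b h => DFunLike.coe_injective h
      rw [Finset.card_image_of_injective _ hinj]
      have h1 := Pool.Agent.W944.Cx.Nm_ge h0 u
      unfold Nm at h1
      rw [Nat.card_coe_set_eq, Set.ncard_eq_toFinset_card _ hfin] at h1
      exact h1

variable {L E : Type*} [Field L] [Field E] [Algebra L E]
variable {ι Zt Zm Zl : Type*} [Fintype ι] [Fintype Zt] [Fintype Zm] [Fintype Zl]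
  [DecidableEq Zt] [DecidableEq Zm] [DecidableEq Zl]

/-- the base space: `1`, the elements `x i` and the base unknowns -/
noncomputable def bs (L : Type*) [Field L] {E : Type*} [Field E] [Algebra L E] {ι : Type*}
    (Zt Zm Zl : Type*) (x : ι → E) : Submodule L (MvPolynomial (Zt ⊕ (Zm ⊕ Zl)) E) :=
  Submodule.span L (Set.range fun o : Option (ι ⊕ (Zt ⊕ Zm)) => o.elim 1
    (Sum.elim (fun i => C (x i)) (Sum.elim (fun z => X (Sum.inl z))
      (fun z => X (Sum.inr (Sum.inl z))))))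

/-- the light space: `1` and the light unknowns -/
noncomputable def ls (L : Type*) [Field L] (E : Type*) [Field E] [Algebra L E]
    (Zt Zm Zl : Type*) : Submodule L (MvPolynomial (Zt ⊕ (Zm ⊕ Zl)) E) :=
  Submodule.span L (Set.range fun o : Option Zl => o.elim 1
    (fun z => X (Sum.inr (Sum.inr z))))

lemma one_mem_bs (x : ι → E) : (1 : MvPolynomial (Zt ⊕ (Zm ⊕ Zl)) E) ∈ bs L Zt Zm Zl x :=
  Submodule.subset_span ⟨none, rfl⟩

lemma C_mem_bs (x : ι → E) (i : ι) :
    (C (x i) : MvPolynomial (Zt ⊕ (Zm ⊕ Zl)) E) ∈ bs L Zt Zm Zl x :=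
  Submodule.subset_span ⟨some (Sum.inl i), rfl⟩

lemma Xt_mem_bs (x : ι → E) (z : Zt) :
    (X (Sum.inl z) : MvPolynomial (Zt ⊕ (Zm ⊕ Zl)) E) ∈ bs L Zt Zm Zl x :=
  Submodule.subset_span ⟨some (Sum.inr (Sum.inl z)), rfl⟩

lemma Xm_mem_bs (x : ι → E) (z : Zm) :
    (X (Sum.inr (Sum.inl z)) : MvPolynomial (Zt ⊕ (Zm ⊕ Zl)) E) ∈ bs L Zt Zm Zl x :=
  Submodule.subset_span ⟨some (Sum.inr (Sum.inr z)), rfl⟩

lemma one_mem_ls : (1 : MvPolynomial (Zt ⊕ (Zm ⊕ Zl)) E) ∈ ls L E Zt Zm Zl :=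
  Submodule.subset_span ⟨none, rfl⟩

lemma Xl_mem_ls (z : Zl) :
    (X (Sum.inr (Sum.inr z)) : MvPolynomial (Zt ⊕ (Zm ⊕ Zl)) E) ∈ ls L E Zt Zm Zl :=
  Submodule.subset_span ⟨some z, rfl⟩

lemma bs_fg (x : ι → E) : (bs L Zt Zm Zl x).FG := Submodule.fg_span (Set.finite_range _)

lemma ls_fg : (ls L E Zt Zm Zl).FG := Submodule.fg_span (Set.finite_range _)

lemma finrank_bs (x : ι → E) (a : ℕ) : finrank L ↥(bs L Zt Zm Zl x ^ a) ≤
    (Fintype.card ι + (Fintype.card Zt + Fintype.card Zm) + 1).multichoose a := by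
  have h := finrank_pow_span_le (K := L) (fun o : Option (ι ⊕ (Zt ⊕ Zm)) => (o.elim 1
    (Sum.elim (fun i => C (x i)) (Sum.elim (fun z => X (Sum.inl z))
      (fun z => X (Sum.inr (Sum.inl z))))) : MvPolynomial (Zt ⊕ (Zm ⊕ Zl)) E)) a
  rw [Fintype.card_option, Fintype.card_sum, Fintype.card_sum] at h
  exact h

lemma finrank_ls (b : ℕ) : finrank L ↥(ls L E Zt Zm Zl ^ b) ≤
    (Fintype.card Zl + 1).multichoose b := by
  have h := finrank_pow_span_le (K := L) (fun o : Option Zl => (o.elim 1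
    (fun z => X (Sum.inr (Sum.inr z))) : MvPolynomial (Zt ⊕ (Zm ⊕ Zl)) E)) b
  rw [Fintype.card_option] at h
  exact h

/-- polynomials of bounded degrees -/
noncomputable def sp2 (x : ι → E) (a b : ℕ) : Submodule L (MvPolynomial (Zt ⊕ (Zm ⊕ Zl)) E) :=
  bs L Zt Zm Zl x ^ a * ls L E Zt Zm Zl ^ b

lemma sp2_fg (x : ι → E) (a b : ℕ) : (sp2 (L := L) (Zt := Zt) (Zm := Zm) (Zl := Zl) x a b).FG :=
  ((bs_fg x).pow a).mul (ls_fg.pow b)

lemma sp2_mono (x : ι → E) {a b a' b' : ℕ} (ha : a ≤ a') (hb : b ≤ b') :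
    sp2 (L := L) (Zt := Zt) (Zm := Zm) (Zl := Zl) x a b ≤ sp2 x a' b' :=
  mul_le_mul' (pow_mono_of_one_mem _ (one_mem_bs x) ha) (pow_mono_of_one_mem _ one_mem_ls hb)

lemma sp2_mul (x : ι → E) (a b a' b' : ℕ) :
    sp2 (L := L) (Zt := Zt) (Zm := Zm) (Zl := Zl) x a b * sp2 x a' b' =
      sp2 x (a + a') (b + b') := by
  unfold sp2
  rw [pow_add, pow_add]
  ring

lemma sp2_pow (x : ι → E) (a b k : ℕ) :
    (sp2 (L := L) (Zt := Zt) (Zm := Zm) (Zl := Zl) x a b) ^ k = sp2 x (a * k) (b * k) := by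
  unfold sp2
  rw [mul_pow, ← pow_mul, ← pow_mul]

lemma sp2_zero (x : ι → E) :
    sp2 (L := L) (Zt := Zt) (Zm := Zm) (Zl := Zl) x 0 0 = 1 := by
  unfold sp2
  rw [pow_zero, pow_zero, one_mul]

lemma finrank_sp2 (x : ι → E) (a b : ℕ) :
    finrank L ↥(sp2 (L := L) (Zt := Zt) (Zm := Zm) (Zl := Zl) x a b) ≤
    (Fintype.card ι + (Fintype.card Zt + Fintype.card Zm) + 1).multichoose a *
      (Fintype.card Zl + 1).multichoose b :=
  (finrank_mul_le _ _ ((bs_fg x).pow a) (ls_fg.pow b)).trans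
    (Nat.mul_le_mul (finrank_bs x a) (finrank_ls b))

lemma prod_mem_sp2 (x : ι → E) {κ : Type*} (s : Finset κ)
    (f : κ → MvPolynomial (Zt ⊕ (Zm ⊕ Zl)) E) (a b : κ → ℕ)
    (h : ∀ i ∈ s, f i ∈ sp2 (L := L) x (a i) (b i)) :
    ∏ i ∈ s, f i ∈ sp2 (L := L) x (∑ i ∈ s, a i) (∑ i ∈ s, b i) := by
  classical
  induction s using Finset.induction_on with
  | empty =>
    rw [Finset.prod_empty, Finset.sum_empty, Finset.sum_empty, sp2_zero]
    exact Submodule.one_le.mp le_rfl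
  | insert i s hi ih =>
    rw [Finset.prod_insert hi, Finset.sum_insert hi, Finset.sum_insert hi, ← sp2_mul]
    exact Submodule.mul_mem_mul (h i (Finset.mem_insert_self _ _))
      (ih fun j hj => h j (Finset.mem_insert_of_mem hj))

/-- **The main inequality for dimensions.** -/
theorem main_dim (x : ι → E) (R : Zt ⊕ (Zm ⊕ Zl) → MvPolynomial (Zt ⊕ (Zm ⊕ Zl)) E)
    (ζ : Zt ⊕ (Zm ⊕ Zl) → E) (h0 : ∀ z, eval ζ (R z) = 0)
    (hJ : ∀ v : Zt ⊕ (Zm ⊕ Zl) → E, (∀ z, (ev2 ζ v (R z)).snd = 0) → v = 0)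
    (N : Zt → ℕ) (α β : ℕ)
    (hRt : ∀ z, R (Sum.inl z) ∈ sp2 (L := L) x (N z) 0)
    (hRm : ∀ z, R (Sum.inr (Sum.inl z)) ∈ sp2 (L := L) x α β)
    (hRl : ∀ z, R (Sum.inr (Sum.inr z)) ∈ sp2 (L := L) x 1 1) (T : Zt → ℕ) (u r a b : ℕ) :
    ((∏ z, (T z + 1)) * (u + Fintype.card Zm).choose (Fintype.card Zm) *
      (r + Fintype.card Zl).choose (Fintype.card Zl)) *
      finrank L ↥((sp2 (L := L) (Zt := Zt) (Zm := Zm) (Zl := Zl) x a b).map
        (evl L ζ).toLinearMap) ≤
    (Fintype.card ι + (Fintype.card Zt + Fintype.card Zm) + 1).multichoose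
        (a + (∑ z, N z * T z + α * u + r)) *
      (Fintype.card Zl + 1).multichoose (b + (β * u + r)) := by
  classical
  obtain ⟨Fm, hFm, hFm2⟩ := exists_expo Zm u
  obtain ⟨Fl, hFl, hFl2⟩ := exists_expo Zl r
  set Ft : Finset (Zt → ℕ) := Fintype.piFinset fun z => Finset.range (T z + 1) with hFt
  have hFt2 : Ft.card = ∏ z, (T z + 1) := by
    rw [hFt, Fintype.card_piFinset]
    simp
  set J : Finset (Zt ⊕ (Zm ⊕ Zl) → ℕ) := (Ft ×ˢ (Fm ×ˢ Fl)).image
    (fun p => Sum.elim p.1 (Sum.elim p.2.1 p.2.2)) with hJdef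
  have hJcard : J.card = Ft.card * (Fm.card * Fl.card) := by
    rw [hJdef, Finset.card_image_of_injective, Finset.card_product, Finset.card_product]
    intro p q h
    simp only at h
    have h1 : p.1 = q.1 := by
      funext z; exact congrFun h (Sum.inl z)
    have h2 : p.2.1 = q.2.1 := by
      funext z; exact congrFun h (Sum.inr (Sum.inl z))
    have h3 : p.2.2 = q.2.2 := by
      funext z; exact congrFun h (Sum.inr (Sum.inr z))
    exact Prod.ext h1 (Prod.ext h2 h3)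
  have key := card_mul_finrank_le R ζ h0 hJ (sp2 (L := L) x a b)
    (sp2 (L := L) x (a + (∑ z, N z * T z + α * u + r)) (b + (β * u + r)))
    (sp2_fg x a b) (sp2_fg x _ _) J (by
      intro j hj w hw
      obtain ⟨⟨jt, jm, jl⟩, hp, rfl⟩ := Finset.mem_image.mp hj
      rw [Finset.mem_product, Finset.mem_product] at hp
      obtain ⟨ht, hm, hl⟩ := hp
      simp only at ht hm hl ⊢
      rw [Fintype.prod_sum_type, Fintype.prod_sum_type]
      simp only [Sum.elim_inl, Sum.elim_inr]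
      have e1 : ∏ z, R (Sum.inl z) ^ jt z ∈ sp2 (L := L) x (∑ z, N z * jt z) (∑ z : Zt, 0 * jt z) := by
        apply prod_mem_sp2
        intro z _
        rw [← sp2_pow]
        exact Submodule.pow_mem_pow _ (hRt z) _
      have e2 : ∏ z, R (Sum.inr (Sum.inl z)) ^ jm z ∈
          sp2 (L := L) x (∑ z, α * jm z) (∑ z, β * jm z) := by
        apply prod_mem_sp2
        intro z _
        rw [← sp2_pow]
        exact Submodule.pow_mem_pow _ (hRm z) _
      have e3 : ∏ z, R (Sum.inr (Sum.inr z)) ^ jl z ∈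
          sp2 (L := L) x (∑ z, 1 * jl z) (∑ z, 1 * jl z) := by
        apply prod_mem_sp2
        intro z _
        rw [← sp2_pow]
        exact Submodule.pow_mem_pow _ (hRl z) _
      have e4 := Submodule.mul_mem_mul (Submodule.mul_mem_mul e1 (Submodule.mul_mem_mul e2 e3)) hw
      rw [sp2_mul, sp2_mul, sp2_mul] at e4
      refine sp2_mono x ?_ ?_ e4
      · have h1 : ∑ z, N z * jt z ≤ ∑ z, N z * T z := by
          apply Finset.sum_le_sum
          intro z _
          apply Nat.mul_le_mul_left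
          rw [hFt, Fintype.mem_piFinset] at ht
          have := Finset.mem_range.mp (ht z)
          omega
        have h2 : ∑ z, α * jm z ≤ α * u := by
          rw [← Finset.mul_sum]
          exact Nat.mul_le_mul_left _ (hFm jm hm)
        have h3 : ∑ z, 1 * jl z ≤ r := by
          simp only [one_mul]
          exact hFl jl hl
        omega
      · have h1 : ∑ z : Zt, 0 * jt z = 0 := by simp
        have h2 : ∑ z, β * jm z ≤ β * u := by
          rw [← Finset.mul_sum]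
          exact Nat.mul_le_mul_left _ (hFm jm hm)
        have h3 : ∑ z, 1 * jl z ≤ r := by
          simp only [one_mul]
          exact hFl jl hl
        omega)
  refine le_trans ?_ (key.trans (finrank_sp2 x _ _))
  apply Nat.mul_le_mul_right
  rw [hJcard, hFt2, mul_assoc]
  exact Nat.mul_le_mul_left _ (Nat.mul_le_mul hFm2 hFl2)

end Pool.Agent.TH152.DG
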