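import Pool.Agent.TH152.DG.Space

/-! # The equations of a program with determinants -/

set_option autoImplicit false
set_option linter.unusedSectionVars false

open Module MvPolynomial

namespace Pool.Agent.TH152.DG

variable {L E : Type*} [Field L] [Field E] [Algebra L E] {ι : Type*} [Fintype ι]
variable {s : ℕ} {N : Fin s → ℕ}

/-- the light unknowns: the entries of the inverse matrices -/
abbrev Ent {s : ℕ} (N : Fin s → ℕ) : Type := (j : Fin s) × (Fin (N j) × Fin (N j))

/-- all unknowns -/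
abbrev Un {s : ℕ} (N : Fin s → ℕ) : Type := Fin s ⊕ (Fin s ⊕ Ent N)

variable (l : (j : Fin s) → Fin (N j) → Fin (N j) → E)
  (γ : (j : Fin s) → Fin (N j) → Fin (N j) → Fin s → L) (f : Fin s → L)

/-- the matrices with the unknowns -/
noncomputable def pm (j : Fin s) : Matrix (Fin (N j)) (Fin (N j)) (MvPolynomial (Un N) E) :=
  Matrix.of fun a b => C (l j a b) + ∑ i ∈ Finset.Iio j, γ j a b i • X (Sum.inl i)

/-- the equations -/
noncomputable def rel : Un N → MvPolynomial (Un N) E
  | Sum.inl j => X (Sum.inl j) - (pm l γ j).det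
  | Sum.inr (Sum.inl i) => X (Sum.inr (Sum.inl i)) - X (Sum.inl i) *
      (C (algebraMap L E (f i)) + ∑ j ∈ Finset.Ioi i, X (Sum.inr (Sum.inl j)) *
        ∑ a, ∑ b, γ j a b i • X (Sum.inr (Sum.inr ⟨j, (b, a)⟩)))
  | Sum.inr (Sum.inr ⟨j, (a, b)⟩) => ∑ c, pm l γ j a c * X (Sum.inr (Sum.inr ⟨j, (c, b)⟩)) -
      C ((1 : Matrix (Fin (N j)) (Fin (N j)) E) a b)

/-- the values of the unknowns -/
noncomputable def val (A : (j : Fin s) → Matrix (Fin (N j)) (Fin (N j)) E) (lam : Fin s → E) :
    Un N → E :=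
  Sum.elim (fun j => (A j).det) (Sum.elim (fun j => lam j * (A j).det)
    (fun z => (A z.1)⁻¹ z.2.1 z.2.2))

lemma rel_t (j : Fin s) : rel l γ f (Sum.inl j) =
    (X (Sum.inl j) - (pm l γ j).det : MvPolynomial (Un N) E) := rfl

lemma rel_m (i : Fin s) : rel l γ f (Sum.inr (Sum.inl i)) =
    (X (Sum.inr (Sum.inl i)) - X (Sum.inl i) *
      (C (algebraMap L E (f i)) + ∑ j ∈ Finset.Ioi i, X (Sum.inr (Sum.inl j)) *
        ∑ a, ∑ b, γ j a b i • X (Sum.inr (Sum.inr ⟨j, (b, a)⟩))) : MvPolynomial (Un N) E) := rfl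

lemma rel_l (j : Fin s) (a b : Fin (N j)) : rel l γ f (Sum.inr (Sum.inr ⟨j, (a, b)⟩)) =
    ((∑ c, pm l γ j a c * X (Sum.inr (Sum.inr ⟨j, (c, b)⟩))) -
      C ((1 : Matrix (Fin (N j)) (Fin (N j)) E) a b) : MvPolynomial (Un N) E) := rfl

variable {l γ f} {A : (j : Fin s) → Matrix (Fin (N j)) (Fin (N j)) E} {lam : Fin s → E}

lemma eval_pm (hA : ∀ j a b, A j a b = l j a b + ∑ i ∈ Finset.Iio j, γ j a b i • (A i).det)
    (j : Fin s) (a b : Fin (N j)) : eval (val A lam) (pm l γ j a b) = A j a b := by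
  unfold pm
  rw [Matrix.of_apply, map_add, eval_C, map_sum, hA]
  congr 1
  apply Finset.sum_congr rfl
  intro i _
  rw [← algebraMap_smul E, smul_eq_C_mul, map_mul, eval_C, eval_X, ← algebraMap_smul E,
    smul_eq_mul]
  rfl

lemma eval_rel (hA : ∀ j a b, A j a b = l j a b + ∑ i ∈ Finset.Iio j, γ j a b i • (A i).det)
    (hd : ∀ j, (A j).det ≠ 0)
    (hl : ∀ i, lam i = algebraMap L E (f i) + ∑ j ∈ Finset.Ioi i, lam j *
      ∑ a, ∑ b, γ j a b i • (A j).adjugate b a) (z : Un N) :
    eval (val A lam) (rel l γ f z) = 0 := by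
  have hmap : ∀ j, (pm l γ j).map (eval (val A lam)) = A j := by
    intro j
    ext a b
    exact eval_pm hA j a b
  rcases z with j | i | ⟨j, a, b⟩
  · rw [rel_t, map_sub, eval_X, RingHom.map_det, RingHom.mapMatrix_apply, hmap]
    unfold val
    simp
  · rw [rel_m]
    have hinv : ∀ j a b, lam j * (A j).det * (A j)⁻¹ b a = lam j * (A j).adjugate b a := by
      intro j a b
      rw [Matrix.inv_def, Matrix.smul_apply, smul_eq_mul, Ring.inverse_eq_inv']
      have := hd j
      field_simp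
    rw [map_sub, map_mul, map_add, map_sum, eval_X, eval_X, eval_C]
    have h1 : ∀ j, eval (val A lam) (X (Sum.inr (Sum.inl j)) *
        ∑ a, ∑ b, γ j a b i • X (Sum.inr (Sum.inr ⟨j, (b, a)⟩)) : MvPolynomial (Un N) E) =
        lam j * ∑ a, ∑ b, γ j a b i • (A j).adjugate b a := by
      intro j
      rw [map_mul, eval_X, map_sum, Finset.mul_sum, Finset.mul_sum]
      apply Finset.sum_congr rfl
      intro a _
      rw [map_sum, Finset.mul_sum, Finset.mul_sum]
      apply Finset.sum_congr rfl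
      intro b _
      rw [← algebraMap_smul E, smul_eq_C_mul, map_mul, eval_C, eval_X, ← algebraMap_smul E (γ j a b i)
        ((A j).adjugate b a), smul_eq_mul]
      have h2 : val A lam (Sum.inr (Sum.inl j)) = lam j * (A j).det := rfl
      have h3 : val A lam (Sum.inr (Sum.inr ⟨j, (b, a)⟩)) = (A j)⁻¹ b a := rfl
      rw [h2, h3]
      have := hinv j a b
      linear_combination (algebraMap L E (γ j a b i)) * this
    rw [Finset.sum_congr rfl fun j _ => h1 j, ← hl]
    have h2 : val A lam (Sum.inr (Sum.inl i)) = lam i * (A i).det := rfl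
    have h3 : val A lam (Sum.inl i) = (A i).det := rfl
    rw [h2, h3]
    ring
  · rw [rel_l, map_sub, eval_C, map_sum, sub_eq_zero]
    have h1 : ∀ c, eval (val A lam) (pm l γ j a c * X (Sum.inr (Sum.inr ⟨j, (c, b)⟩))) =
        A j a c * (A j)⁻¹ c b := by
      intro c
      rw [map_mul, eval_pm hA, eval_X]
      rfl
    rw [Finset.sum_congr rfl fun c _ => h1 c, ← Matrix.mul_apply,
      Matrix.mul_nonsing_inv _ (isUnit_iff_ne_zero.mpr (hd j))]

lemma ev2_X (ζ v : Un N → E) (z : Un N) : ev2 ζ v (X z) =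
    TrivSqZeroExt.inl (ζ z) + TrivSqZeroExt.inr (v z) := by
  unfold ev2
  rw [aeval_X]

lemma ev2_C (ζ v : Un N → E) (c : E) : ev2 ζ v (C c) = TrivSqZeroExt.inl c := by
  rw [← algebraMap_eq, AlgHom.commutes]
  rfl

lemma ev2_smul (ζ v : Un N → E) (c : L) (p : MvPolynomial (Un N) E) :
    ev2 ζ v (c • p) = TrivSqZeroExt.inl (algebraMap L E c) * ev2 ζ v p := by
  rw [← algebraMap_smul E, smul_eq_C_mul, map_mul, ev2_C]

/-- if the unknown vector vanishes on the earlier values, the matrix is constant -/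
lemma ev2_pm (hA : ∀ j a b, A j a b = l j a b + ∑ i ∈ Finset.Iio j, γ j a b i • (A i).det)
    (v : Un N → E) (j : Fin s) (hv : ∀ i < j, v (Sum.inl i) = 0) (a b : Fin (N j)) :
    ev2 (val A lam) v (pm l γ j a b) = TrivSqZeroExt.inl (A j a b) := by
  apply TrivSqZeroExt.ext
  · rw [fst_ev2, eval_pm hA, TrivSqZeroExt.fst_inl]
  · rw [TrivSqZeroExt.snd_inl]
    unfold pm
    rw [Matrix.of_apply, map_add, ev2_C, map_sum, TrivSqZeroExt.snd_add, TrivSqZeroExt.snd_inl,
      zero_add, TrivSqZeroExt.snd_sum]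
    apply Finset.sum_eq_zero
    intro i hi
    rw [ev2_smul, ev2_X, hv i (Finset.mem_Iio.mp hi)]
    simp

lemma rel_indep (hA : ∀ j a b, A j a b = l j a b + ∑ i ∈ Finset.Iio j, γ j a b i • (A i).det)
    (hd : ∀ j, (A j).det ≠ 0) (v : Un N → E)
    (h : ∀ z, (ev2 (val A lam) v (rel l γ f z)).snd = 0) : v = 0 := by
  -- the values of the determinants
  have h1 : ∀ j, v (Sum.inl j) = 0 := by
    intro j
    induction j using WellFoundedLT.induction with
    | _ j ih =>
      have h2 := h (Sum.inl j)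
      rw [rel_t, map_sub, ev2_X, AlgHom.map_det] at h2
      have h3 : (ev2 (val A lam) v).mapMatrix (pm l γ j) =
          (A j).map (algebraMap E (TrivSqZeroExt E E)) := by
        ext1 a b
        exact ev2_pm hA v j ih a b
      have h4 : ((ev2 (val A lam) v).mapMatrix (pm l γ j)).det =
          TrivSqZeroExt.inl (A j).det := by
        rw [h3]
        have := (algebraMap E (TrivSqZeroExt E E)).map_det (A j)
        rw [RingHom.mapMatrix_apply] at this
        rw [← this]
        rfl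
      rw [h4] at h2
      simpa using h2
  have h2 : ∀ (j : Fin s) (a b : Fin (N j)), v (Sum.inr (Sum.inr ⟨j, (a, b)⟩)) = 0 := by
    intro j
    have h3 : A j * Matrix.of (fun a b => v (Sum.inr (Sum.inr ⟨j, (a, b)⟩))) = 0 := by
      ext a b
      have h4 := h (Sum.inr (Sum.inr ⟨j, (a, b)⟩))
      rw [rel_l, map_sub, ev2_C, map_sum, TrivSqZeroExt.snd_sub, TrivSqZeroExt.snd_inl, sub_zero,
        TrivSqZeroExt.snd_sum] at h4
      rw [Matrix.mul_apply, Matrix.zero_apply, ← h4]
      apply Finset.sum_congr rfl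
      intro c _
      rw [map_mul, ev2_pm hA v j (fun i _ => h1 i), ev2_X, Matrix.of_apply]
      simp
    have h4 : Matrix.of (fun a b => v (Sum.inr (Sum.inr ⟨j, (a, b)⟩))) = 0 := by
      have h5 := congrArg (fun M => (A j)⁻¹ * M) h3
      simp only [← Matrix.mul_assoc, Matrix.nonsing_inv_mul _ (isUnit_iff_ne_zero.mpr (hd j)),
        Matrix.one_mul, Matrix.mul_zero] at h5
      exact h5
    intro a b
    exact congrFun (congrFun h4 a) b
  have h3 : ∀ i, v (Sum.inr (Sum.inl i)) = 0 := by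
    intro i
    induction i using WellFoundedGT.induction with
    | _ i ih =>
      have h4 := h (Sum.inr (Sum.inl i))
      rw [rel_m, map_sub, TrivSqZeroExt.snd_sub, ev2_X, map_mul, TrivSqZeroExt.snd_mul, ev2_X, h1 i] at h4
      have h5 : (ev2 (val A lam) v (C (algebraMap L E (f i)) + ∑ j ∈ Finset.Ioi i,
          X (Sum.inr (Sum.inl j)) * ∑ a, ∑ b, γ j a b i • X (Sum.inr (Sum.inr ⟨j, (b, a)⟩)))).snd =
          0 := by
        rw [map_add, ev2_C, map_sum, TrivSqZeroExt.snd_add, TrivSqZeroExt.snd_inl, zero_add,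
          TrivSqZeroExt.snd_sum]
        apply Finset.sum_eq_zero
        intro j hj
        rw [map_mul, TrivSqZeroExt.snd_mul, ev2_X, ih j (Finset.mem_Ioi.mp hj)]
        have h6 : (ev2 (val A lam) v (∑ a, ∑ b, γ j a b i •
            X (Sum.inr (Sum.inr ⟨j, (b, a)⟩)))).snd = 0 := by
          rw [map_sum, TrivSqZeroExt.snd_sum]
          apply Finset.sum_eq_zero
          intro a _
          rw [map_sum, TrivSqZeroExt.snd_sum]
          apply Finset.sum_eq_zero
          intro b _
          rw [ev2_smul, ev2_X, h2 j b a]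
          simp
        rw [h6]
        simp
      rw [h5] at h4
      simpa using h4
  funext z
  rcases z with j | i | ⟨j, a, b⟩
  · exact h1 j
  · exact h3 i
  · exact h2 j a b

end Pool.Agent.TH152.DG
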