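import Pool.Agent.TH152.DG.Sys

/-! # Degrees of the equations of a program with determinants -/

set_option autoImplicit false
set_option linter.unusedSectionVars false

open Module MvPolynomial

namespace Pool.Agent.TH152.DG

variable {L E : Type*} [Field L] [Field E] [Algebra L E] {ι : Type*} [Fintype ι]
variable {s : ℕ} {N : Fin s → ℕ}

/-- the span of `1` and the elements `x i` -/
noncomputable def xs (L : Type*) [Field L] {E : Type*} [Field E] [Algebra L E] {ι : Type*}
    (x : ι → E) : Submodule L E :=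
  Submodule.span L (Set.range fun o : Option ι => o.elim 1 x)

lemma C_mem_sp2 {Zt Zm Zl : Type*} [Fintype Zt] [Fintype Zm] [Fintype Zl]
    [DecidableEq Zt] [DecidableEq Zm] [DecidableEq Zl] (x : ι → E) (c : E) (hc : c ∈ xs L x) :
    (C c : MvPolynomial (Zt ⊕ (Zm ⊕ Zl)) E) ∈ sp2 (L := L) x 1 0 := by
  unfold sp2
  rw [pow_one, pow_zero, mul_one]
  unfold xs at hc
  induction hc using Submodule.span_induction with
  | mem y hy =>
    obtain ⟨o, rfl⟩ := hy
    cases o with
    | none => exact one_mem_bs x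
    | some i => exact C_mem_bs x i
  | zero => rw [C_0]; exact Submodule.zero_mem _
  | add y z _ _ hy hz => rw [C_add]; exact Submodule.add_mem _ hy hz
  | smul a y _ hy =>
    have : (C (a • y) : MvPolynomial (Zt ⊕ (Zm ⊕ Zl)) E) = a • C y := by
      rw [← algebraMap_smul E a y, smul_eq_mul, C_mul, ← algebraMap_smul E a (C y),
        smul_eq_C_mul]
    rw [this]
    exact Submodule.smul_mem _ _ hy

section mem

variable {Zt Zm Zl : Type*} [Fintype Zt] [Fintype Zm] [Fintype Zl]
  [DecidableEq Zt] [DecidableEq Zm] [DecidableEq Zl]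

lemma one_mem_sp2 (x : ι → E) (a b : ℕ) :
    (1 : MvPolynomial (Zt ⊕ (Zm ⊕ Zl)) E) ∈ sp2 (L := L) x a b := by
  apply sp2_mono x (Nat.zero_le a) (Nat.zero_le b)
  rw [sp2_zero]
  exact Submodule.one_le.mp le_rfl

lemma Xt_mem_sp2 (x : ι → E) (z : Zt) :
    (X (Sum.inl z) : MvPolynomial (Zt ⊕ (Zm ⊕ Zl)) E) ∈ sp2 (L := L) x 1 0 := by
  unfold sp2
  rw [pow_one, pow_zero, mul_one]
  exact Xt_mem_bs x z

lemma Xm_mem_sp2 (x : ι → E) (z : Zm) :
    (X (Sum.inr (Sum.inl z)) : MvPolynomial (Zt ⊕ (Zm ⊕ Zl)) E) ∈ sp2 (L := L) x 1 0 := by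
  unfold sp2
  rw [pow_one, pow_zero, mul_one]
  exact Xm_mem_bs x z

lemma Xl_mem_sp2 (x : ι → E) (z : Zl) :
    (X (Sum.inr (Sum.inr z)) : MvPolynomial (Zt ⊕ (Zm ⊕ Zl)) E) ∈ sp2 (L := L) x 0 1 := by
  unfold sp2
  rw [pow_one, pow_zero, one_mul]
  exact Xl_mem_ls z

lemma mul_mem_sp2 (x : ι → E) {p q : MvPolynomial (Zt ⊕ (Zm ⊕ Zl)) E} {a b a' b' : ℕ}
    (hp : p ∈ sp2 (L := L) x a b) (hq : q ∈ sp2 (L := L) x a' b') :
    p * q ∈ sp2 (L := L) x (a + a') (b + b') := by
  rw [← sp2_mul]
  exact Submodule.mul_mem_mul hp hq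

lemma CL_mem_sp2 (x : ι → E) (c : L) (a b : ℕ) :
    (C (algebraMap L E c) : MvPolynomial (Zt ⊕ (Zm ⊕ Zl)) E) ∈ sp2 (L := L) x a b := by
  have : (C (algebraMap L E c) : MvPolynomial (Zt ⊕ (Zm ⊕ Zl)) E) = c • 1 := by
    rw [← algebraMap_smul E c (1 : MvPolynomial (Zt ⊕ (Zm ⊕ Zl)) E), smul_eq_C_mul, mul_one]
  rw [this]
  exact Submodule.smul_mem _ _ (one_mem_sp2 x a b)

end mem

variable {l : (j : Fin s) → Fin (N j) → Fin (N j) → E}
  {γ : (j : Fin s) → Fin (N j) → Fin (N j) → Fin s → L} {f : Fin s → L}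
  {A : (j : Fin s) → Matrix (Fin (N j)) (Fin (N j)) E} {lam : Fin s → E}

lemma pm_mem (x : ι → E) (hlx : ∀ j a b, l j a b ∈ xs L x) (j : Fin s) (a b : Fin (N j)) :
    pm l γ j a b ∈ sp2 (L := L) x 1 0 := by
  unfold pm
  rw [Matrix.of_apply]
  apply Submodule.add_mem
  · exact C_mem_sp2 x _ (hlx j a b)
  · apply Submodule.sum_mem
    intro i _
    exact Submodule.smul_mem _ _ (Xt_mem_sp2 x i)

lemma det_mem_sp2 (x : ι → E) (hlx : ∀ j a b, l j a b ∈ xs L x) (j : Fin s) :
    (pm l γ j).det ∈ sp2 (L := L) x (N j) 0 := by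
  rw [Matrix.det_apply]
  apply Submodule.sum_mem
  intro σ _
  have h1 := prod_mem_sp2 (L := L) x Finset.univ (fun i => pm l γ j (σ i) i) (fun _ => 1)
    (fun _ => 0) (fun i _ => pm_mem x hlx j _ _)
  rw [Finset.sum_const_zero, Finset.sum_const, Finset.card_univ, Fintype.card_fin, smul_eq_mul,
    mul_one] at h1
  rcases Int.units_eq_one_or (Equiv.Perm.sign σ) with h | h
  · rw [h, one_smul]; exact h1
  · rw [h, Units.neg_smul, one_smul]; exact Submodule.neg_mem _ h1

/-- **The dimension inequality of a program with determinants.** -/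
theorem sys_dim (x : ι → E) (hlx : ∀ j a b, l j a b ∈ xs L x)
    (hA : ∀ j a b, A j a b = l j a b + ∑ i ∈ Finset.Iio j, γ j a b i • (A i).det)
    (hd : ∀ j, (A j).det ≠ 0)
    (hl : ∀ i, lam i = algebraMap L E (f i) + ∑ j ∈ Finset.Ioi i, lam j *
      ∑ a, ∑ b, γ j a b i • (A j).adjugate b a) (T : Fin s → ℕ) (u r a b : ℕ) :
    ((∏ z, (T z + 1)) * (u + s).choose s * (r + ∑ j, N j * N j).choose (∑ j, N j * N j)) *
      finrank L ↥((sp2 (L := L) (Zt := Fin s) (Zm := Fin s) (Zl := Ent N) x a b).map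
        (evl L (val A lam)).toLinearMap) ≤
    (Fintype.card ι + (s + s) + 1).multichoose (a + (∑ z, max (N z) 1 * T z + 2 * u + r)) *
      (∑ j, N j * N j + 1).multichoose (b + (1 * u + r)) := by
  have h := main_dim (L := L) x (rel l γ f) (val A lam) (eval_rel hA hd hl)
    (fun v hv => rel_indep hA hd v hv) (fun z => max (N z) 1) 2 1
    (fun j => by
      rw [rel_t]
      apply Submodule.sub_mem
      · exact sp2_mono x (le_max_right _ _) le_rfl (Xt_mem_sp2 x j)
      · exact sp2_mono x (le_max_left _ _) le_rfl (det_mem_sp2 x hlx j))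
    (fun i => by
      rw [rel_m]
      apply Submodule.sub_mem
      · exact sp2_mono x (by norm_num) (by norm_num) (Xm_mem_sp2 x i)
      · have h1 := mul_mem_sp2 (L := L) (a' := 1) (b' := 1) x
          (Xt_mem_sp2 (L := L) (E := E) (Zt := Fin s) (Zm := Fin s) (Zl := Ent N) x i)
          (q := C (algebraMap L E (f i)) + ∑ j ∈ Finset.Ioi i, X (Sum.inr (Sum.inl j)) *
            ∑ a, ∑ b, γ j a b i • X (Sum.inr (Sum.inr ⟨j, (b, a)⟩))) (by
            apply Submodule.add_mem
            · exact CL_mem_sp2 x _ 1 1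
            · apply Submodule.sum_mem
              intro j _
              refine mul_mem_sp2 (a := 1) (b := 0) (a' := 0) (b' := 1) x (Xm_mem_sp2 x j) ?_
              apply Submodule.sum_mem
              intro a _
              apply Submodule.sum_mem
              intro b _
              exact Submodule.smul_mem _ _ (Xl_mem_sp2 x _))
        exact h1)
    (fun z => by
      obtain ⟨j, a, b⟩ := z
      rw [rel_l]
      apply Submodule.sub_mem
      · apply Submodule.sum_mem
        intro c _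
        exact mul_mem_sp2 (a := 1) (b := 0) (a' := 0) (b' := 1) x (pm_mem x hlx j a c)
          (Xl_mem_sp2 x _)
      · rw [Matrix.one_apply]
        split_ifs
        · rw [C_1]; exact one_mem_sp2 x 1 1
        · rw [C_0]; exact Submodule.zero_mem _) T u r a b
  have hcard : Fintype.card (Ent N) = ∑ j, N j * N j := by
    unfold Ent
    rw [Fintype.card_sigma]
    simp [Fintype.card_prod]
  rw [Fintype.card_fin, hcard] at h
  exact h

/-- the space of values contains the elements `x i` -/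
lemma xs_le_map (x : ι → E) (c : E) (hc : c ∈ xs L x) :
    c ∈ (sp2 (L := L) (Zt := Fin s) (Zm := Fin s) (Zl := Ent N) x 1 1).map
        (evl L (val A lam)).toLinearMap := by
  refine ⟨C c, sp2_mono x le_rfl (Nat.zero_le 1) (C_mem_sp2 x c hc), ?_⟩
  change eval (val A lam) (C c) = c
  rw [eval_C]

/-- the derivative as a polynomial in the unknowns -/
noncomputable def derp (c : L) (β : (j : Fin s) → Fin (N j) → Fin (N j) → L) :
    MvPolynomial (Un N) E :=
  C (algebraMap L E c) + ∑ j, X (Sum.inr (Sum.inl j)) *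
    ∑ a, ∑ b, β j a b • X (Sum.inr (Sum.inr ⟨j, (b, a)⟩))

/-- the space of values contains the derivatives -/
lemma der_mem_map (x : ι → E) (hd : ∀ j, (A j).det ≠ 0) (c : L)
    (β : (j : Fin s) → Fin (N j) → Fin (N j) → L) :
    algebraMap L E c + ∑ j, lam j * ∑ a, ∑ b, β j a b • (A j).adjugate b a ∈
      (sp2 (L := L) (Zt := Fin s) (Zm := Fin s) (Zl := Ent N) x 1 1).map
        (evl L (val A lam)).toLinearMap := by
  refine ⟨derp c β, ?_, ?_⟩
  · unfold derp
    apply Submodule.add_mem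
    · exact CL_mem_sp2 x _ 1 1
    · apply Submodule.sum_mem
      intro j _
      refine mul_mem_sp2 (a := 1) (b := 0) (a' := 0) (b' := 1) x (Xm_mem_sp2 x j) ?_
      apply Submodule.sum_mem
      intro a _
      apply Submodule.sum_mem
      intro b _
      exact Submodule.smul_mem _ _ (Xl_mem_sp2 x _)
  · change eval (val A lam) (derp c β) = _
    unfold derp
    rw [map_add, eval_C, map_sum]
    congr 1
    apply Finset.sum_congr rfl
    intro j _
    rw [map_mul, eval_X, map_sum, Finset.mul_sum, Finset.mul_sum]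
    apply Finset.sum_congr rfl
    intro a _
    rw [map_sum, Finset.mul_sum, Finset.mul_sum]
    apply Finset.sum_congr rfl
    intro b _
    rw [← algebraMap_smul E, smul_eq_C_mul, map_mul, eval_C, eval_X,
      ← algebraMap_smul E (β j a b) ((A j).adjugate b a), smul_eq_mul]
    have h2 : val A lam (Sum.inr (Sum.inl j)) = lam j * (A j).det := rfl
    have h3 : val A lam (Sum.inr (Sum.inr ⟨j, (b, a)⟩)) = (A j)⁻¹ b a := rfl
    have h4 : lam j * (A j).det * (A j)⁻¹ b a = lam j * (A j).adjugate b a := by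
      rw [Matrix.inv_def, Matrix.smul_apply, smul_eq_mul, Ring.inverse_eq_inv']
      have := hd j
      field_simp
    rw [h2, h3]
    linear_combination (algebraMap L E (β j a b)) * h4

end Pool.Agent.TH152.DG
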